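import Mathlib

/-!
# A1: reflections of the weights for a triple of endomorphisms
-/

set_option autoImplicit false

namespace Pool.Agent.Lib.MP_021685_agO4

open Module

private theorem A1_pow {k M ι : Type*} [Field k] [AddCommGroup M] [Module k M]
    {x h : End k M} (hhx : h * x - x * h = (2 : k) • x)
    (t : ι → End k M) (α τ : ι → k) (htx : ∀ j, t j * x - x * t j = α j • x) {u : M} (n : ℕ)
    (hn : h u = (n : k) • u) (ht : ∀ j, t j u = τ j • u) (m : ℕ) :
    h ((x ^ m) u) = ((n : k) + 2 * m) • (x ^ m) u ∧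
      ∀ j, t j ((x ^ m) u) = (τ j + m * α j) • (x ^ m) u := by
  have e1 : ∀ v, h (x v) = x (h v) + (2 : k) • x v := fun v => by
    have h1 := LinearMap.congr_fun hhx v
    simp only [LinearMap.sub_apply, Module.End.mul_apply, LinearMap.smul_apply] at h1
    rw [← h1]
    abel
  have e2 : ∀ j v, t j (x v) = x (t j v) + α j • x v := fun j v => by
    have h1 := LinearMap.congr_fun (htx j) v
    simp only [LinearMap.sub_apply, Module.End.mul_apply, LinearMap.smul_apply] at h1
    rw [← h1]
    abel
  induction m with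
  | zero =>
    refine ⟨?_, fun j => ?_⟩
    · rw [pow_zero, Module.End.one_apply, hn, Nat.cast_zero, mul_zero, add_zero]
    · rw [pow_zero, Module.End.one_apply, ht j, Nat.cast_zero, zero_mul, add_zero]
  | succ m ih =>
    have e3 : (x ^ (m + 1)) u = x ((x ^ m) u) := by
      rw [pow_succ', Module.End.mul_apply]
    rw [e3]
    refine ⟨?_, fun j => ?_⟩
    · rw [e1, ih.1, map_smul, ← add_smul]
      congr 1
      push_cast
      ring
    · rw [e2, ih.2 j, map_smul, ← add_smul]
      congr 1
      push_cast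
      ring

private theorem A1_nat {k M ι : Type*} [Field k] [CharZero k] [AddCommGroup M] [Module k M]
    [FiniteDimensional k M] {x y h : End k M} (hxy : x * y - y * x = h)
    (hhx : h * x - x * h = (2 : k) • x) (hhy : h * y - y * h = -((2 : k) • y))
    (t : ι → End k M) (α τ : ι → k) (htx : ∀ j, t j * x - x * t j = α j • x)
    (hty : ∀ j, t j * y - y * t j = -(α j • y)) {u : M} (hu : u ≠ 0) (n : ℕ)
    (hn : h u = (n : k) • u) (ht : ∀ j, t j u = τ j • u) :
    ∃ u' : M, u' ≠ 0 ∧ ∀ j, t j u' = (τ j - (n : k) * α j) • u' := by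
  classical
  have hpow := A1_pow hhx t α τ htx n hn ht
  -- some power of x kills u
  have hex : ∃ m, (x ^ m) u = 0 := by
    by_contra hcon
    have hne : ∀ m, (x ^ m) u ≠ 0 := fun m h0 => hcon ⟨m, h0⟩
    have hli : LinearIndependent k (fun i : Fin (Module.finrank k M + 1) => (x ^ (i : ℕ)) u) := by
      refine Module.End.eigenvectors_linearIndependent' h
        (fun i : Fin (Module.finrank k M + 1) => (n : k) + 2 * ((i : ℕ) : k)) ?_ _ ?_
      · intro i j hij
        have h1 : (n : k) + 2 * ((i : ℕ) : k) = (n : k) + 2 * ((j : ℕ) : k) := hij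
        have h2 : ((i : ℕ) : k) = ((j : ℕ) : k) := by
          have h3 := add_left_cancel h1
          exact mul_left_cancel₀ two_ne_zero h3
        exact Fin.ext (by exact_mod_cast h2)
      · intro i
        exact ⟨Module.End.mem_eigenspace_iff.2 (hpow (i : ℕ)).1, hne _⟩
    have h4 := hli.fintype_card_le_finrank
    rw [Fintype.card_fin] at h4
    omega
  obtain ⟨m, hm0, hm1⟩ : ∃ m, (x ^ m) u ≠ 0 ∧ (x ^ (m + 1)) u = 0 := by
    have h1 := Nat.find_spec hex
    have h2 : Nat.find hex ≠ 0 := by
      intro h3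
      rw [h3, pow_zero, Module.End.one_apply] at h1
      exact hu h1
    obtain ⟨m, hm⟩ := Nat.exists_eq_succ_of_ne_zero h2
    refine ⟨m, fun h4 => ?_, ?_⟩
    · exact Nat.find_min hex (by rw [hm]; exact Nat.lt_succ_self m) h4
    · rw [hm] at h1
      exact h1
  set u₁ : M := (x ^ m) u with hu1
  have hxu1 : x u₁ = 0 := by
    rw [hu1, ← Module.End.mul_apply, ← pow_succ']
    exact hm1
  obtain ⟨hh1, ht1⟩ := hpow m
  have e1 : ∀ v, h (y v) = y (h v) - (2 : k) • y v := fun v => by
    have h1 := LinearMap.congr_fun hhy v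
    simp only [LinearMap.sub_apply, Module.End.mul_apply, LinearMap.smul_apply, LinearMap.neg_apply] at h1
    rw [sub_eq_add_neg, ← h1]
    abel
  have e2 : ∀ j v, t j (y v) = y (t j v) - α j • y v := fun j v => by
    have h1 := LinearMap.congr_fun (hty j) v
    simp only [LinearMap.sub_apply, Module.End.mul_apply, LinearMap.smul_apply, LinearMap.neg_apply] at h1
    rw [sub_eq_add_neg, ← h1]
    abel
  have e3 : ∀ v, x (y v) = y (x v) + h v := fun v => by
    have h1 := LinearMap.congr_fun hxy v
    simp only [LinearMap.sub_apply, Module.End.mul_apply] at h1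
    rw [← h1]
    abel
  have hw : ∀ r : ℕ, (y ^ (r + 1)) u₁ = y ((y ^ r) u₁) := fun r => by
    rw [pow_succ', Module.End.mul_apply]
  have hr : ∀ r : ℕ, h ((y ^ r) u₁) = ((n : k) + 2 * m - 2 * r) • (y ^ r) u₁ ∧
      ∀ j, t j ((y ^ r) u₁) = (τ j + m * α j - r * α j) • (y ^ r) u₁ := by
    intro r
    induction r with
    | zero =>
      refine ⟨?_, fun j => ?_⟩
      · rw [pow_zero, Module.End.one_apply, hh1, Nat.cast_zero, mul_zero, sub_zero]
      · rw [pow_zero, Module.End.one_apply, ht1 j, Nat.cast_zero, zero_mul, sub_zero]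
    | succ r ih =>
      rw [hw]
      refine ⟨?_, fun j => ?_⟩
      · rw [e1, ih.1, map_smul, ← sub_smul]
        congr 1
        push_cast
        ring
      · rw [e2, ih.2 j, map_smul, ← sub_smul]
        congr 1
        push_cast
        ring
  have hx : ∀ r : ℕ, x ((y ^ (r + 1)) u₁) = (((r : k) + 1) * ((n : k) + 2 * m - r)) • (y ^ r) u₁ := by
    intro r
    induction r with
    | zero =>
      rw [hw, e3, pow_zero, Module.End.one_apply, hxu1, map_zero, zero_add, hh1]
      congr 1
      push_cast
      ring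
    | succ r ih =>
      rw [hw (r + 1), e3, ih, map_smul, ← hw r, (hr (r + 1)).1, ← add_smul]
      congr 1
      push_cast
      ring
  have hne : ∀ r : ℕ, r ≤ n + 2 * m → (y ^ r) u₁ ≠ 0 := by
    intro r
    induction r with
    | zero =>
      intro _
      rw [pow_zero, Module.End.one_apply]
      exact hm0
    | succ r ih =>
      intro hle h0
      have h1 := hx r
      rw [h0, map_zero] at h1
      have h2 := (smul_eq_zero.1 h1.symm).resolve_right (ih (by omega))
      rcases mul_eq_zero.1 h2 with h3 | h3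
      · have h4 : ((r + 1 : ℕ) : k) = 0 := by
          push_cast
          exact h3
        exact Nat.succ_ne_zero r (by exact_mod_cast h4)
      · have h4 : ((n + 2 * m - r : ℕ) : k) = 0 := by
          rw [Nat.cast_sub (by omega)]
          push_cast
          exact h3
        have h5 : n + 2 * m - r = 0 := by exact_mod_cast h4
        omega
  refine ⟨(y ^ (n + m)) u₁, hne _ (by omega), fun j => ?_⟩
  rw [(hr (n + m)).2 j]
  congr 1
  push_cast
  ring

/-- Let `x`, `y`, `h` be an `sl₂`-triple of endomorphisms of a finite-dimensional space `M`, and `t j`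
endomorphisms with `[t j, x] = α j x`, `[t j, y] = - α j y`. If `u ≠ 0` is a joint eigenvector, of
eigenvalues `τ j` for `t j` and of the integer eigenvalue `n` for `h`, then there is a joint eigenvector
`u' ≠ 0` of the `t j` with eigenvalues `τ j - n α j`.

PROOF. Case `0 ≤ n` (write `n` as a natural number). The vectors `x ^ m u` satisfy
`h (x ^ m u) = (n + 2 m) x ^ m u` (induction on `m`). They cannot all be non-zero: non-zero vectors with
distinct eigenvalues are linearly independent (`Module.End.eigenvectors_linearIndependent'`), and `M` is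
finite-dimensional, `k` of characteristic zero. Let `m` be the largest number with `u₁ = x ^ m u ≠ 0`
(`Nat.find` for the first `m + 1` with `x ^ (m + 1) u = 0`). So `x u₁ = 0`, `h u₁ = N u₁` with
`N = n + 2 m`. By induction on `r`: `h (y ^ r u₁) = (N - 2 r) y ^ r u₁` and
`x (y ^ (r + 1) u₁) = (r + 1) (N - r) y ^ r u₁` (use `x y = y x + h`). Therefore `y ^ r u₁ ≠ 0` for all
`r ≤ N` (induction: `(r + 1) (N - r) ≠ 0` for `r < N`). (Mathlib: `IsSl2Triple`,
`IsSl2Triple.HasPrimitiveVectorWith`, in `Mathlib/Algebra/Lie/Sl2.lean`, may also be used, with the Lie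
algebra `End k M`.) Take `u' = y ^ (n + m) u₁`; `n + m ≤ N`, so `u' ≠ 0`, and (induction, from
`t j x = x t j + α j x` and `t j y = y t j - α j y`) `t j (x ^ m u) = (τ j + m α j) x ^ m u` and
`t j u' = (τ j + m α j - (n + m) α j) u' = (τ j - n α j) u'`.

Case `n < 0`: apply the first case to `(y, x, -h)`, to `-n` and to `-α`: `[y, x] = -h`, `[-h, y] = 2 y`,
`[-h, x] = -2 x`, `[t j, y] = (-α j) y`, `[t j, x] = -(-α j) x`, and `τ j - (-n) (-α j) = τ j - n α j`. -/
theorem sl2_reflect {k M ι : Type*} [Field k] [CharZero k] [AddCommGroup M] [Module k M]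
    [FiniteDimensional k M] {x y h : End k M} (hxy : x * y - y * x = h)
    (hhx : h * x - x * h = (2 : k) • x) (hhy : h * y - y * h = -((2 : k) • y))
    (t : ι → End k M) (α τ : ι → k) (htx : ∀ j, t j * x - x * t j = α j • x)
    (hty : ∀ j, t j * y - y * t j = -(α j • y)) {u : M} (hu : u ≠ 0) (n : ℤ)
    (hn : h u = (n : k) • u) (ht : ∀ j, t j u = τ j • u) :
    ∃ u' : M, u' ≠ 0 ∧ ∀ j, t j u' = (τ j - (n : k) * α j) • u' := by
  obtain ⟨N, rfl | rfl⟩ := n.eq_nat_or_neg
  · obtain ⟨u', h1, h2⟩ := A1_nat hxy hhx hhy t α τ htx hty hu N (by rw [hn, Int.cast_natCast]) ht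
    exact ⟨u', h1, fun j => by rw [h2 j, Int.cast_natCast]⟩
  · have a1 : y * x - x * y = -h := by rw [← hxy]; abel
    have a2 : -h * y - y * -h = (2 : k) • y := by
      have h3 : -h * y - y * -h = -(h * y - y * h) := by noncomm_ring
      rw [h3, hhy, neg_neg]
    have a3 : -h * x - x * -h = -((2 : k) • x) := by
      have h3 : -h * x - x * -h = -(h * x - x * h) := by noncomm_ring
      rw [h3, hhx]
    obtain ⟨u', h1, h2⟩ := A1_nat (x := y) (y := x) (h := -h) a1 a2 a3 t (fun j => -α j) τ
      (fun j => by rw [hty j, neg_smul]) (fun j => by rw [htx j, neg_smul, neg_neg]) hu N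
      (by rw [LinearMap.neg_apply, hn, Int.cast_neg, Int.cast_natCast, neg_smul, neg_neg]) ht
    refine ⟨u', h1, fun j => ?_⟩
    rw [h2 j]
    congr 1
    push_cast
    ring

end Pool.Agent.Lib.MP_021685_agO4
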