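import Mathlib

/-!
# A2: the symplectic Lie algebra is simple
-/

set_option autoImplicit false

namespace Pool.Agent.Lib.MP_021685_agO4

open Module

/-- PROOF. Write `b u v` for `β u v`; `b u v = - b v u` for `u, v ∈ W` (polarise `alt`).
* There is `z ∈ W` with `b (A z) z ≠ 0`. Otherwise (polarise: `b (A (u + v)) (u + v) = 0`)
  `b (A u) v + b (A v) u = 0` for `u, v ∈ W`; but `b (A v) u = - b v (A u) = b (A u) v`
  (`hAs` and alternation), so `2 b (A u) v = 0` for all `v`, `A u = 0` by `nondeg`: contradiction to `hA0`.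
* `hA z z` and `symm`: `2 F z (A z) ∈ I`, so `F z (A z) ∈ I`. Put `r = b z (A z) ≠ 0`.
* `hI` for the element `F z (A z)` and for the pair `z, z` (`b z z = 0`): `2 r F z z ∈ I`, so `F z z ∈ I`.
* `hI` for the element `F z z` and the pair `x, y`: `2 b x z F z y + 2 b y z F x z ∈ I`. Take `x` with
  `b x z = 1` (it exists: rescale `A z`). With `y = x`: `4 F z x ∈ I`; so `F x z = F z x ∈ I`. Then
  with any `y ∈ W`: `F z y ∈ I`.
* `hI` for the element `F z y ∈ I` and the pair `x, w`:
  `b x z F y w + b x y F z w + b w z F x y + b w y F x z ∈ I`; the second and the fourth summand are in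
  `I`, so `F y w + b w z F x y ∈ I` (`x` as before, `b x z = 1`). With `w = x`: `2 F x y ∈ I`. So
  `F x y ∈ I` for all `y ∈ W`, and `F y w ∈ I` for all `y, w ∈ W`. -/
theorem ideal_core {k H L : Type*} [Field k] [CharZero k] [AddCommGroup H] [Module k H]
    [AddCommGroup L] [Module k L] (W : Submodule k H) (β : H →ₗ[k] H →ₗ[k] k)
    (alt : ∀ u ∈ W, β u u = 0) (nondeg : ∀ u ∈ W, (∀ v ∈ W, β u v = 0) → u = 0)
    (F : H →ₗ[k] H →ₗ[k] L) (symm : ∀ x y, F x y = F y x) (I : Submodule k L)
    (hI : ∀ x ∈ W, ∀ y ∈ W, F x y ∈ I → ∀ z ∈ W, ∀ w ∈ W,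
      F (β z x • y + β z y • x) w + F z (β w x • y + β w y • x) ∈ I)
    (A : End k H) (hAW : ∀ u ∈ W, A u ∈ W) (hAs : ∀ u ∈ W, ∀ v ∈ W, β (A u) v + β u (A v) = 0)
    (hA : ∀ x ∈ W, ∀ y ∈ W, F (A x) y + F x (A y) ∈ I) (hA0 : ∃ u ∈ W, A u ≠ 0) :
    ∀ x ∈ W, ∀ y ∈ W, F x y ∈ I := by
  have skew : ∀ u ∈ W, ∀ v ∈ W, β u v = -β v u := by
    intro u hu v hv
    have h := alt (u + v) (W.add_mem hu hv)
    simp only [map_add, LinearMap.add_apply, alt u hu, alt v hv, zero_add, add_zero] at h
    exact eq_neg_of_add_eq_zero_right h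
  have half : ∀ l : L, l + l ∈ I → l ∈ I := by
    intro l hl
    have h := I.smul_mem (1 / 2 : k) hl
    rw [← two_smul k l, smul_smul, one_div_mul_cancel (two_ne_zero : (2 : k) ≠ 0), one_smul] at h
    exact h
  have hz : ∃ z ∈ W, β (A z) z ≠ 0 := by
    by_contra hcon
    push Not at hcon
    obtain ⟨u, hu, hne⟩ := hA0
    refine hne (nondeg (A u) (hAW u hu) fun v hv => ?_)
    have h1 := hcon (u + v) (W.add_mem hu hv)
    simp only [map_add, LinearMap.add_apply, hcon u hu, hcon v hv, zero_add, add_zero] at h1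
    have h2 := hAs v hv u hu
    have h3 := skew v hv (A u) (hAW u hu)
    rw [h3] at h2
    have h4 : β (A v) u = β (A u) v := by
      linear_combination h2
    rw [h4] at h1
    have h5 : (2 : k) * β (A u) v = 0 := by
      linear_combination h1
    exact (mul_eq_zero.1 h5).resolve_left two_ne_zero
  obtain ⟨z, hzW, hz0⟩ := hz
  have haW : A z ∈ W := hAW z hzW
  have hFa : F z (A z) ∈ I := by
    have h := hA z hzW z hzW
    rw [symm (A z) z] at h
    exact half _ h
  have hr : β z (A z) ≠ 0 := by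
    rw [skew z hzW (A z) haW]
    exact neg_ne_zero.2 hz0
  have hFz : F z z ∈ I := by
    have h := hI z hzW (A z) haW hFa z hzW z hzW
    rw [alt z hzW, zero_smul, zero_add, map_smul, LinearMap.smul_apply, map_smul] at h
    have h1 := half _ h
    have h2 := I.smul_mem (β z (A z))⁻¹ h1
    rw [smul_smul, inv_mul_cancel₀ hr, one_smul] at h2
    exact h2
  have h4 : ∀ x ∈ W, ∀ y ∈ W, β x z • F z y + β y z • F x z ∈ I := by
    intro x hx y hy
    have h := hI z hzW z hzW hFz x hx y hy
    simp only [map_add, map_smul, LinearMap.add_apply, LinearMap.smul_apply] at h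
    refine half _ ?_
    have e : β x z • F z y + β y z • F x z + (β x z • F z y + β y z • F x z) =
        β x z • F z y + β x z • F z y + (β y z • F x z + β y z • F x z) := by abel
    rw [e]
    exact h
  obtain ⟨x, hx, hxz⟩ : ∃ x ∈ W, β x z = 1 := by
    refine ⟨(β (A z) z)⁻¹ • A z, W.smul_mem _ haW, ?_⟩
    rw [map_smul, LinearMap.smul_apply, smul_eq_mul, inv_mul_cancel₀ hz0]
  have hxz2 : F x z ∈ I := by
    have h := h4 x hx x hx
    rw [hxz, one_smul, one_smul, symm z x] at h
    exact half _ h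
  have hzy : ∀ y ∈ W, F z y ∈ I := by
    intro y hy
    have h := h4 x hx y hy
    rw [hxz, one_smul] at h
    have h1 := I.sub_mem h (I.smul_mem (β y z) hxz2)
    rw [add_sub_cancel_right] at h1
    exact h1
  have h5 : ∀ y ∈ W, ∀ w ∈ W, F y w + β w z • F x y ∈ I := by
    intro y hy w hw
    have h := hI z hzW y hy (hzy y hy) x hx w hw
    simp only [map_add, map_smul, LinearMap.add_apply, LinearMap.smul_apply, hxz, one_smul] at h
    have h1 := I.sub_mem (I.sub_mem h (I.smul_mem (β x y) (hzy w hw))) (I.smul_mem (β w y) hxz2)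
    have e : F y w + β x y • F z w + (β w z • F x y + β w y • F x z) - β x y • F z w - β w y • F x z =
        F y w + β w z • F x y := by abel
    rw [e] at h1
    exact h1
  have hxy : ∀ y ∈ W, F x y ∈ I := by
    intro y hy
    have h := h5 y hy x hx
    rw [hxz, one_smul, symm y x] at h
    exact half _ h
  intro y hy w hw
  have h := I.sub_mem (h5 y hy w hw) (I.smul_mem (β w z) (hxy y hy))
  rw [add_sub_cancel_right] at h
  exact h

end Pool.Agent.Lib.MP_021685_agO4
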