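import Mathlib

/-!
# A3: permutations of a vector which is not constant
-/

set_option autoImplicit false

namespace Pool.Agent.Lib.MP_021685_agO4

/-- PROOF. Let `A = {x | χ x = χ i₀}`, so `i₀ ∈ A`, `j₀ ∉ A`. Put `w j₀ = χ`,
`w i = χ ∘ Equiv.swap i j₀` for `i ∈ A`, and `w j = χ ∘ Equiv.swap i₀ j` for `j ∉ A`, `j ≠ j₀`. The set
`{x | w i x = χ i₀}` is `A`, `A - i + j₀`, `A - i₀ + j` respectively, and these sets are pairwise distinct.
Details for the injectivity of `w` (the values at `i₀` and `j₀` decide most cases): for `i ∈ A`: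
`w i j₀ = χ i₀`; for `j ∉ A`: `w j j₀ = χ j₀ ≠ χ i₀`; so `w i ≠ w j`. For `i ≠ i'` in `A`:
`w i i = χ j₀`, `w i' i = χ i = χ i₀`. For `j ∉ A`, `j ≠ j₀`: `w j j = χ i₀` and `w j₀ j = χ j ≠ χ i₀`,
and for another such `j'` also `w j' j = χ j ≠ χ i₀`. The sum: `Equiv.sum_comp`. -/
theorem comb_perm {d : ℕ} (P : (Fin d → ℤ) → Prop) {χ : Fin d → ℤ} (h : P χ)
    (hswap : ∀ i j, P (χ ∘ Equiv.swap i j)) {i₀ j₀ : Fin d} (hne : χ i₀ ≠ χ j₀) :
    ∃ w : Fin d → Fin d → ℤ, Function.Injective w ∧ ∀ i, P (w i) ∧ ∑ j, w i j = ∑ j, χ j := by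
  classical
  have hij : j₀ ≠ i₀ := fun he => hne (by rw [he])
  obtain ⟨w, hw⟩ : ∃ w : Fin d → Fin d → ℤ, w = fun i => if χ i = χ i₀ then χ ∘ Equiv.swap i j₀ else
    if i = j₀ then χ else χ ∘ Equiv.swap i₀ i := ⟨_, rfl⟩
  have h1 : ∀ i, χ i = χ i₀ → w i = χ ∘ Equiv.swap i j₀ := by
    intro i hi
    rw [hw]
    simp only [if_pos hi]
  have h2 : w j₀ = χ := by
    rw [hw]
    simp only [if_neg (fun he : χ j₀ = χ i₀ => hne he.symm), if_true]
  have h3 : ∀ i, χ i ≠ χ i₀ → i ≠ j₀ → w i = χ ∘ Equiv.swap i₀ i := by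
    intro i hi hi'
    rw [hw]
    simp only [if_neg hi, if_neg hi']
  have k1 : ∀ i, χ i = χ i₀ → w i j₀ = χ i₀ := by
    intro i hi
    rw [h1 i hi, Function.comp_apply, Equiv.swap_apply_right, hi]
  have k2 : ∀ i, χ i ≠ χ i₀ → w i j₀ = χ j₀ := by
    intro i hi
    by_cases hij' : i = j₀
    · rw [hij', h2]
    · rw [h3 i hi hij', Function.comp_apply, Equiv.swap_apply_of_ne_of_ne hij (Ne.symm hij')]
  have k3 : ∀ i, χ i ≠ χ i₀ → ∀ i', χ i' ≠ χ i₀ → i ≠ i' → w i' i ≠ χ i₀ := by
    intro i hi i' hi' hne'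
    by_cases hij' : i' = j₀
    · rw [hij', h2]
      exact hi
    · rw [h3 i' hi' hij', Function.comp_apply, Equiv.swap_apply_of_ne_of_ne (fun he => hi (by rw [he])) hne']
      exact hi
  have k4 : ∀ i, χ i ≠ χ i₀ → i ≠ j₀ → w i i = χ i₀ := by
    intro i hi hi'
    rw [h3 i hi hi', Function.comp_apply, Equiv.swap_apply_right]
  refine ⟨w, fun i i' he => ?_, fun i => ?_⟩
  · by_contra hne'
    by_cases hi : χ i = χ i₀
    · by_cases hi' : χ i' = χ i₀
      · have e1 : w i i = χ j₀ := by rw [h1 i hi, Function.comp_apply, Equiv.swap_apply_left]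
        have e2 : w i' i = χ i₀ := by
          rw [h1 i' hi', Function.comp_apply, Equiv.swap_apply_of_ne_of_ne hne' (fun he' => hne (by rw [← hi, he']))]
          exact hi
        rw [he, e2] at e1
        exact hne e1
      · have e1 := k1 i hi
        rw [he, k2 i' hi'] at e1
        exact hne e1.symm
    · by_cases hi' : χ i' = χ i₀
      · have e1 := k1 i' hi'
        rw [← he, k2 i hi] at e1
        exact hne e1.symm
      · by_cases hij' : i = j₀
        · have e1 := k4 i' hi' (fun he' => hne' (by rw [hij', he']))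
          rw [← he] at e1
          exact k3 i' hi' i hi (Ne.symm hne') e1
        · have e1 := k4 i hi hij'
          rw [he] at e1
          exact k3 i hi i' hi' hne' e1
  · by_cases hi : χ i = χ i₀
    · rw [h1 i hi]
      exact ⟨hswap i j₀, Equiv.sum_comp (Equiv.swap i j₀) χ⟩
    · by_cases hij' : i = j₀
      · rw [hij', h2]
        exact ⟨h, rfl⟩
      · rw [h3 i hi hij']
        exact ⟨hswap i₀ i, Equiv.sum_comp (Equiv.swap i₀ i) χ⟩

/-- PROOF. Induction on `s` (`Finset.induction_on`): for `s = ∅` it is `h`; for `insert i s`, `i ∉ s`,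
apply `hsign` at `i` to the statement for `s`: the value at `i` is `χ i` (as `i ∉ s`). -/
theorem comb_signs {k : Type*} [Field k] {d : ℕ} (Ξ : k → (Fin d → ℤ) → Prop)
    (hsign : ∀ a χ i, Ξ a χ → Ξ (a - (χ i : k)) (Function.update χ i (-χ i)))
    {a : k} {χ : Fin d → ℤ} (h : Ξ a χ) (s : Finset (Fin d)) :
    Ξ (a - ∑ i ∈ s, (χ i : k)) (fun i => if i ∈ s then -χ i else χ i) := by
  induction s using Finset.induction_on with
  | empty =>
    have h1 : (fun i => if i ∈ (∅ : Finset (Fin d)) then -χ i else χ i) = χ := by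
      funext i
      rw [if_neg (Finset.notMem_empty i)]
    rw [h1, Finset.sum_empty, sub_zero]
    exact h
  | insert i s hi ih =>
    have h1 := hsign _ _ i ih
    have h2 : (fun j => if j ∈ s then -χ j else χ j) i = χ i := if_neg hi
    have h3 : (Function.update (fun j => if j ∈ s then -χ j else χ j) i (-(fun j => if j ∈ s then -χ j else χ j) i)) =
        fun j => if j ∈ insert i s then -χ j else χ j := by
      funext j
      rw [h2]
      by_cases hj : j = i
      · rw [hj, Function.update_self, if_pos (Finset.mem_insert_self i s)]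
      · rw [Function.update_of_ne hj]
        by_cases hjs : j ∈ s
        · rw [if_pos hjs, if_pos (Finset.mem_insert_of_mem hjs)]
        · rw [if_neg hjs, if_neg (fun h' => (Finset.mem_insert.1 h').elim hj hjs)]
    rw [h3, if_neg hi, sub_sub] at h1
    rw [Finset.sum_insert hi, add_comm]
    exact h1

end Pool.Agent.Lib.MP_021685_agO4
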