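import Pool.Agent.Lib.MP_021685_agO4.A3

/-!
# A4: many weights with the same eigenvalue
-/

set_option autoImplicit false

namespace Pool.Agent.Lib.MP_021685_agO4

/-- The sign change of all coordinates. -/
private theorem a4_neg {k : Type*} [Field k] {d : ℕ}
    (Ξ : k → (Fin d → ℤ) → Prop)
    (hsign : ∀ a χ i, Ξ a χ → Ξ (a - (χ i : k)) (Function.update χ i (-χ i)))
    {a : k} {χ : Fin d → ℤ} (h : Ξ a χ) :
    Ξ (a - ∑ i, (χ i : k)) (-χ) := by
  have h1 := comb_signs Ξ hsign h Finset.univ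
  have h2 : (fun i => if i ∈ (Finset.univ : Finset (Fin d)) then -χ i else χ i) = -χ := by
    funext i
    simp
  rwa [h2] at h1

/-- The case where all coordinates are nonnegative. -/
private theorem a4_nonneg {k : Type*} [Field k] [CharZero k] {d : ℕ} (hd : d ≠ 2)
    (Ξ : k → (Fin d → ℤ) → Prop)
    (hsign : ∀ a χ i, Ξ a χ → Ξ (a - (χ i : k)) (Function.update χ i (-χ i)))
    (hswap : ∀ a χ i j, Ξ a χ → Ξ a (χ ∘ Equiv.swap i j))
    {a : k} {χ : Fin d → ℤ} (h : Ξ a χ) (hχ : χ ≠ 0) (hpos : ∀ i, 0 ≤ χ i) :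
    ∃ (a₁ a₂ : k) (w₁ w₂ : Fin d → Fin d → ℤ), a₁ ≠ a₂ ∧ Function.Injective w₁ ∧
      Function.Injective w₂ ∧ (∀ i, Ξ a₁ (w₁ i)) ∧ ∀ i, Ξ a₂ (w₂ i) := by
  obtain ⟨i₁, hi₁⟩ : ∃ i, χ i ≠ 0 := by
    by_contra hcon
    push Not at hcon
    exact hχ (funext hcon)
  have hi₁' : 0 < χ i₁ := lt_of_le_of_ne (hpos i₁) (Ne.symm hi₁)
  have hS : 0 < ∑ j, χ j :=
    Finset.sum_pos' (fun i _ => hpos i) ⟨i₁, Finset.mem_univ _, hi₁'⟩
  by_cases hc : ∃ i₀ j₀, χ i₀ ≠ χ j₀
  · obtain ⟨i₀, j₀, hne⟩ := hc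
    obtain ⟨w, hw, hw2⟩ := comb_perm (Ξ a) h (fun i j => hswap a χ i j h) hne
    refine ⟨a, a - ((∑ j, χ j : ℤ) : k), w, fun i => -w i, ?_, hw, ?_, fun i => (hw2 i).1, ?_⟩
    · intro hE
      have h0 : ((∑ j, χ j : ℤ) : k) = 0 := by
        have := congrArg (fun x => a - x) hE
        simpa using this.symm
      have : (∑ j, χ j : ℤ) = 0 := by exact_mod_cast h0
      omega
    · intro i j hij
      exact hw (neg_injective hij)
    · intro i
      have h1 := a4_neg Ξ hsign (hw2 i).1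
      have h2 : (∑ j, (w i j : k)) = ((∑ j, χ j : ℤ) : k) := by
        rw [← (hw2 i).2]
        push_cast
        rfl
      rw [h2] at h1
      exact h1
  · push Not at hc
    have hm : ∀ i, χ i = χ i₁ := fun i => hc i i₁
    obtain ⟨m, hmdef⟩ : ∃ m, m = χ i₁ := ⟨_, rfl⟩
    have hm' : ∀ i, χ i = m := fun i => by rw [hm i, hmdef]
    have hmpos : 0 < m := by rw [hmdef]; exact hi₁'
    have hw1 : ∀ i, Ξ (a - (m : k)) (Function.update χ i (-m)) := by
      intro i
      have := hsign a χ i h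
      rwa [hm' i] at this
    have hsum : ∀ i, ∑ j, Function.update χ i (-m) j = ((d : ℤ) - 2) * m := by
      intro i
      rw [Finset.sum_update_of_mem (Finset.mem_univ i)]
      have h1 : ∑ x ∈ Finset.univ \ {i}, χ x = ((d : ℤ) - 1) * m := by
        rw [Finset.sum_congr rfl (fun x _ => hm' x), Finset.sum_const, Finset.card_sdiff]
        have hd1 : 1 ≤ d := by
          have := i.2
          omega
        simp only [Finset.inter_univ, Finset.card_singleton, Finset.card_univ, Fintype.card_fin]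
        rw [nsmul_eq_mul, Nat.cast_sub hd1]
        norm_num
      rw [h1]
      ring
    have hinj : Function.Injective (fun i => Function.update χ i (-m)) := by
      intro i j hij
      by_contra hne
      have h1 := congrFun hij i
      simp only [Function.update_self] at h1
      rw [Function.update_of_ne hne, hm' i] at h1
      omega
    refine ⟨a - (m : k), a - (m : k) - ((((d : ℤ) - 2) * m : ℤ) : k),
      fun i => Function.update χ i (-m), fun i => -Function.update χ i (-m), ?_, hinj, ?_, hw1, ?_⟩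
    · intro hE
      have h0 : ((((d : ℤ) - 2) * m : ℤ) : k) = 0 := by
        have := congrArg (fun x => a - (m : k) - x) hE
        simpa using this.symm
      have h1 : ((d : ℤ) - 2) * m = 0 := by exact_mod_cast h0
      rcases mul_eq_zero.mp h1 with h2 | h2
      · apply hd
        omega
      · omega
    · intro i j hij
      exact hinj (neg_injective hij)
    · intro i
      have h1 := a4_neg Ξ hsign (hw1 i)
      have h2 : (∑ j, (Function.update χ i (-m) j : k)) = ((((d : ℤ) - 2) * m : ℤ) : k) := by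
        rw [← hsum i]
        push_cast
        rfl
      rw [h2] at h1
      exact h1

/-- PROOF. By `comb_signs` with `s = {i | χ i < 0}` we may suppose that `0 ≤ χ i` for all `i`
(the new `χ` is `|χ|`, still not zero). Put `S = ∑ j, χ j > 0`.
* `χ` is not constant, `χ i₀ ≠ χ j₀`: take `w` from `comb_perm` (with `P = Ξ a`), `a₁ = a`, `w₁ = w`,
  `a₂ = a - S`, `w₂ i = - w i`: `comb_signs` with `s = Finset.univ` gives
  `Ξ (a - ∑ j, (w i j : k)) (- w i)`, and `∑ j, w i j = S`. `a₁ ≠ a₂` because `S ≠ 0` (characteristic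
  zero).
* `χ = (m, …, m)`, `0 < m` (if `d = 0` then `χ = 0`, excluded): take `w₁ i = Function.update χ i (-m)`,
  `a₁ = a - m` (`hsign`), and `w₂ i = - w₁ i`, `a₂ = a - m - (d - 2) m` (`comb_signs`, `s = Finset.univ`,
  applied to `w₁ i`; `∑ j, w₁ i j = (d - 2) m`). `a₁ ≠ a₂` because `d ≠ 2`, `m ≠ 0`. Injective: for
  `i ≠ i'`, `w₁ i i = -m ≠ m = w₁ i' i`. -/
theorem comb_gen {k : Type*} [Field k] [CharZero k] {d : ℕ} (hd : d ≠ 2)
    (Ξ : k → (Fin d → ℤ) → Prop)
    (hsign : ∀ a χ i, Ξ a χ → Ξ (a - (χ i : k)) (Function.update χ i (-χ i)))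
    (hswap : ∀ a χ i j, Ξ a χ → Ξ a (χ ∘ Equiv.swap i j))
    {a : k} {χ : Fin d → ℤ} (h : Ξ a χ) (hχ : χ ≠ 0) :
    ∃ (a₁ a₂ : k) (w₁ w₂ : Fin d → Fin d → ℤ), a₁ ≠ a₂ ∧ Function.Injective w₁ ∧
      Function.Injective w₂ ∧ (∀ i, Ξ a₁ (w₁ i)) ∧ ∀ i, Ξ a₂ (w₂ i) := by
  have h1 := comb_signs Ξ hsign h (Finset.univ.filter fun i => χ i < 0)
  refine a4_nonneg hd Ξ hsign hswap h1 ?_ ?_
  · intro h0
    apply hχ
    funext i
    have h2 := congrFun h0 i
    simp only [Finset.mem_filter, Finset.mem_univ, true_and, Pi.zero_apply] at h2 ⊢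
    split_ifs at h2 <;> omega
  · intro i
    simp only [Finset.mem_filter, Finset.mem_univ, true_and]
    split_ifs with h2 <;> omega

end Pool.Agent.Lib.MP_021685_agO4
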