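import Mathlib

/-!
# A5: joint eigenvectors
-/

set_option autoImplicit false

namespace Pool.Agent.Lib.MP_021685_agO4

open Module

/-- PROOF. `linearIndependent_iff'`: let `s` be a finite set and `∑ i ∈ s, b i • u i = 0`; show `b i₀ = 0`
for `i₀ ∈ s`, by (strong) induction on `s` for all `b`. If `s = {i₀}`: `b i₀ • u i₀ = 0`. Otherwise take
`i₁ ∈ s`, `i₁ ≠ i₀`, and `j` with `τ i₀ j ≠ τ i₁ j`; apply `t j` and subtract `τ i₁ j` times the relation:
`∑ i ∈ s.erase i₁, (b i * (τ i j - τ i₁ j)) • u i = 0`. By induction `b i₀ * (τ i₀ j - τ i₁ j) = 0`. -/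
theorem linInd_joint {k M ι J : Type*} [Field k] [AddCommGroup M] [Module k M]
    (t : J → End k M) (τ : ι → J → k) (hτ : Function.Injective τ) (u : ι → M) (hu : ∀ i, u i ≠ 0)
    (h : ∀ i j, t j (u i) = τ i j • u i) : LinearIndependent k u := by
  classical
  rw [linearIndependent_iff']
  intro s
  induction s using Finset.strongInduction with
  | H s ih =>
    intro b hb i₀ hi₀
    by_cases hex : ∃ i₁ ∈ s, i₁ ≠ i₀
    · obtain ⟨i₁, hi₁, hne⟩ := hex
      have hτ' : τ i₀ ≠ τ i₁ := fun h => hne (hτ h).symm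
      obtain ⟨j, hj⟩ := Function.ne_iff.1 hτ'
      have h3 : ∑ i ∈ s, (b i * (τ i j - τ i₁ j)) • u i = 0 := by
        have h2 := congrArg (t j) hb
        rw [map_sum, map_zero] at h2
        calc ∑ i ∈ s, (b i * (τ i j - τ i₁ j)) • u i =
            ∑ i ∈ s, t j (b i • u i) - τ i₁ j • ∑ i ∈ s, b i • u i := by
              rw [Finset.smul_sum, ← Finset.sum_sub_distrib]
              refine Finset.sum_congr rfl fun i _ => ?_
              rw [map_smul, h, smul_smul, smul_smul, ← sub_smul]
              exact congrArg (fun c => c • u i) (by ring)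
          _ = 0 := by rw [h2, hb, smul_zero, sub_zero]
      have h1 : ∑ i ∈ s.erase i₁, (b i * (τ i j - τ i₁ j)) • u i = 0 := by
        rw [Finset.sum_erase s (by rw [sub_self, mul_zero, zero_smul]), h3]
      have h4 := ih (s.erase i₁) (Finset.erase_ssubset hi₁) (fun i => b i * (τ i j - τ i₁ j)) h1 i₀
        (Finset.mem_erase.2 ⟨hne.symm, hi₀⟩)
      exact (mul_eq_zero.1 h4).resolve_right (sub_ne_zero.2 hj)
    · push Not at hex
      have h5 : s = {i₀} := Finset.eq_singleton_iff_unique_mem.2 ⟨hi₀, hex⟩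
      rw [h5, Finset.sum_singleton] at hb
      exact (smul_eq_zero.1 hb).resolve_right (hu i₀)

end Pool.Agent.Lib.MP_021685_agO4
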