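import Mathlib

/-!
# A6: interpolation
-/

set_option autoImplicit false

namespace Pool.Agent.Lib.MP_021685_agO4

open Module

private theorem A6_aux {k V Ω : Type*} [Field k] [AddCommGroup V] [Module k V] [FiniteDimensional k V]
    (ev : Ω → V →ₗ[k] k) (hev : ∀ M : V, (∀ ω, ev ω M = 0) → M = 0) (n : ℕ) :
    ∀ W : Submodule k V, finrank k W ≤ n →
      ∃ (r : ℕ) (w : Fin r → Ω) (b : Fin r → V), ∀ M ∈ W, M = ∑ j, ev (w j) M • b j := by
  have hbot : ∀ W : Submodule k V, W = ⊥ →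
      ∃ (r : ℕ) (w : Fin r → Ω) (b : Fin r → V), ∀ M ∈ W, M = ∑ j, ev (w j) M • b j := by
    rintro W rfl
    refine ⟨0, Fin.elim0, Fin.elim0, fun M hM => ?_⟩
    rw [(Submodule.mem_bot k).1 hM, Fin.sum_univ_zero]
  induction n with
  | zero =>
    intro W hW
    exact hbot W (Submodule.finrank_eq_zero.1 (Nat.le_zero.1 hW))
  | succ n ih =>
    intro W hW
    by_cases h : W = ⊥
    · exact hbot W h
    · obtain ⟨M₀, hM₀, hne⟩ := Submodule.exists_mem_ne_zero_of_ne_bot h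
      obtain ⟨ω, hω⟩ : ∃ ω, ev ω M₀ ≠ 0 := by
        by_contra hh
        push Not at hh
        exact hne (hev M₀ hh)
      have hlt : W ⊓ LinearMap.ker (ev ω) < W := by
        refine lt_of_le_of_ne inf_le_left fun e => hω ?_
        have h1 : M₀ ∈ W ⊓ LinearMap.ker (ev ω) := by
          rw [e]
          exact hM₀
        exact h1.2
      obtain ⟨r, w, b, hb⟩ := ih (W ⊓ LinearMap.ker (ev ω)) (by
        have := Submodule.finrank_lt_finrank_of_lt hlt
        omega)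
      refine ⟨r + 1, Fin.cons ω w, Fin.cons ((ev ω M₀)⁻¹ • (M₀ - ∑ j, ev (w j) M₀ • b j)) b,
        fun M hM => ?_⟩
      rw [Fin.sum_univ_succ]
      simp only [Fin.cons_zero, Fin.cons_succ]
      obtain ⟨t, ht⟩ : ∃ t, t = ev ω M * (ev ω M₀)⁻¹ := ⟨_, rfl⟩
      have h1 : M - t • M₀ ∈ W ⊓ LinearMap.ker (ev ω) := by
        refine ⟨W.sub_mem hM (W.smul_mem t hM₀), ?_⟩
        change ev ω (M - t • M₀) = 0
        rw [map_sub, map_smul, smul_eq_mul, ht, mul_assoc, inv_mul_cancel₀ hω, mul_one, sub_self]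
      have h2 := hb _ h1
      have h3 : ∑ j, ev (w j) (M - t • M₀) • b j =
          ∑ j, ev (w j) M • b j - t • ∑ j, ev (w j) M₀ • b j := by
        rw [Finset.smul_sum, ← Finset.sum_sub_distrib]
        refine Finset.sum_congr rfl fun j _ => ?_
        rw [map_sub, map_smul, smul_eq_mul, sub_smul, mul_smul]
      rw [h3, sub_eq_iff_eq_add] at h2
      rw [smul_smul, ← ht, smul_sub]
      conv_lhs => rw [h2]
      abel

/-- PROOF. Induction on the dimension of `V` (for all `ev`). If `V = 0`: `r = 0`. Otherwise take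
`M₀ ≠ 0` and `ω` with `ev ω M₀ ≠ 0`, and apply the induction hypothesis to `V' = LinearMap.ker (ev ω)`
(its dimension is smaller, as `M₀ ∉ V'`), with the restrictions of the `ev`: we get `r'`, `w'`, `b'`. For `M`
in `V` put `t = ev ω M / ev ω M₀`; `M - t • M₀ ∈ V'`, so
`M = t • M₀ + ∑ j, (ev (w' j) M - t * ev (w' j) M₀) • b' j
= ∑ j, ev (w' j) M • b' j + ev ω M • ((ev ω M₀)⁻¹ • (M₀ - ∑ j, ev (w' j) M₀ • b' j))`. -/
theorem interp {k V Ω : Type*} [Field k] [AddCommGroup V] [Module k V] [FiniteDimensional k V]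
    (ev : Ω → V →ₗ[k] k) (hev : ∀ M : V, (∀ ω, ev ω M = 0) → M = 0) :
    ∃ (r : ℕ) (w : Fin r → Ω) (b : Fin r → V), ∀ M : V, M = ∑ j, ev (w j) M • b j := by
  obtain ⟨r, w, b, hb⟩ := A6_aux ev hev (finrank k (⊤ : Submodule k V)) ⊤ le_rfl
  exact ⟨r, w, b, fun M => hb M Submodule.mem_top⟩

end Pool.Agent.Lib.MP_021685_agO4
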