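import Mathlib

/-!
# A8: four weights
-/

set_option autoImplicit false

namespace Pool.Agent.Lib.MP_021685_agO4

private theorem A8_inj {p q r t : ℤ} (w : Fin 4 → Fin 2 → ℤ) (h0 : w 0 = ![p, q]) (h1 : w 1 = ![-p, q])
    (h2 : w 2 = ![r, t]) (h3 : w 3 = ![-r, -t] ∨ w 3 = ![r, -t]) (hp : p ≠ 0) (ht : t ≠ 0)
    (hd : (p ≠ r ∧ p ≠ -r) ∨ (q ≠ t ∧ q ≠ -t)) : Function.Injective w := by
  have e : ∀ x y : Fin 4, w x = w y → w x 0 = w y 0 ∧ w x 1 = w y 1 := fun x y hxy => ⟨by rw [hxy], by rw [hxy]⟩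
  intro x y hxy
  have h := e x y hxy
  rcases h3 with h3 | h3 <;> fin_cases x <;> fin_cases y <;> first
    | rfl
    | (exfalso
       simp only [Fin.zero_eta, Fin.mk_one, Fin.reduceFinMk, h0, h1, h2, h3, Matrix.cons_val_zero, Matrix.cons_val_one] at h
       omega)

/-- PROOF. Let `χ = (p, q)`. If `p ≠ 0` and `q ≠ 0`: the four vectors `(±p, ±q)` (`hsign` once or twice).
If `q = 0`, `p ≠ 0`: `(p, 0)`, `(-p, 0)`, `(0, p)`, `(0, -p)` (`hswap 0 1`, then `hsign`). If `p = 0`,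
`q ≠ 0`: the same. They are pairwise distinct. -/
theorem comb_two {k : Type*} [Field k] [CharZero k] (Ξ : k → (Fin 2 → ℤ) → Prop)
    (hsign : ∀ a χ i, Ξ a χ → Ξ (a - (χ i : k)) (Function.update χ i (-χ i)))
    (hswap : ∀ a χ i j, Ξ a χ → Ξ a (χ ∘ Equiv.swap i j))
    {a : k} {χ : Fin 2 → ℤ} (h : Ξ a χ) (hχ : χ ≠ 0) :
    ∃ (b : Fin 4 → k) (w : Fin 4 → Fin 2 → ℤ), Function.Injective w ∧ ∀ j, Ξ (b j) (w j) := by
  have hs0 : ∀ p q : ℤ, (∃ a, Ξ a ![p, q]) → ∃ a, Ξ a ![-p, q] := by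
    rintro p q ⟨a, ha⟩
    have h1 := hsign a _ 0 ha
    have h2 : Function.update ![p, q] 0 (-(![p, q] 0)) = ![-p, q] := by
      ext i
      fin_cases i
      · rfl
      · rfl
    rw [h2] at h1
    exact ⟨_, h1⟩
  have hs1 : ∀ p q : ℤ, (∃ a, Ξ a ![p, q]) → ∃ a, Ξ a ![p, -q] := by
    rintro p q ⟨a, ha⟩
    have h1 := hsign a _ 1 ha
    have h2 : Function.update ![p, q] 1 (-(![p, q] 1)) = ![p, -q] := by
      ext i
      fin_cases i
      · rfl
      · rfl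
    rw [h2] at h1
    exact ⟨_, h1⟩
  have hsw : ∀ p q : ℤ, (∃ a, Ξ a ![p, q]) → ∃ a, Ξ a ![q, p] := by
    rintro p q ⟨a, ha⟩
    have h1 := hswap a _ 0 1 ha
    have h2 : ![p, q] ∘ Equiv.swap (0 : Fin 2) 1 = ![q, p] := by
      ext i
      fin_cases i
      · rfl
      · rfl
    rw [h2] at h1
    exact ⟨_, h1⟩
  have key : ∀ w : Fin 4 → Fin 2 → ℤ, Function.Injective w → (∀ j, ∃ a, Ξ a (w j)) →
      ∃ (b : Fin 4 → k) (w : Fin 4 → Fin 2 → ℤ), Function.Injective w ∧ ∀ j, Ξ (b j) (w j) := by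
    intro w hw h
    choose b hb using h
    exact ⟨b, w, hw, hb⟩
  have main : ∀ p q : ℤ, p ≠ 0 → (∃ a, Ξ a ![p, q]) →
      ∃ (b : Fin 4 → k) (w : Fin 4 → Fin 2 → ℤ), Function.Injective w ∧ ∀ j, Ξ (b j) (w j) := by
    intro p q hp hpq
    by_cases hq : q = 0
    · subst hq
      refine key ![![p, 0], ![-p, 0], ![0, p], ![0, -p]]
        (A8_inj (p := p) (q := 0) (r := 0) (t := p) _ rfl rfl rfl (Or.inr rfl) hp hp (Or.inl ⟨hp, by simpa using hp⟩)) ?_
      intro j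
      fin_cases j
      · exact hpq
      · exact hs0 _ _ hpq
      · exact hsw _ _ hpq
      · exact hs1 _ _ (hsw _ _ hpq)
    · refine key ![![p, q], ![-p, q], ![p, -q], ![-p, -q]] ?_ ?_
      · intro x y hxy
        have h : (![![p, q], ![-p, q], ![p, -q], ![-p, -q]] : Fin 4 → Fin 2 → ℤ) x 0 =
              (![![p, q], ![-p, q], ![p, -q], ![-p, -q]] : Fin 4 → Fin 2 → ℤ) y 0 ∧
            (![![p, q], ![-p, q], ![p, -q], ![-p, -q]] : Fin 4 → Fin 2 → ℤ) x 1 =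
              (![![p, q], ![-p, q], ![p, -q], ![-p, -q]] : Fin 4 → Fin 2 → ℤ) y 1 :=
          ⟨by rw [hxy], by rw [hxy]⟩
        clear hxy
        fin_cases x <;> fin_cases y <;> first
          | rfl
          | (exfalso
             simp at h
             omega)
      · intro j
        fin_cases j
        · exact hpq
        · exact hs0 _ _ hpq
        · exact hs1 _ _ hpq
        · exact hs0 _ _ (hs1 _ _ hpq)
  have hχ2 : χ = ![χ 0, χ 1] := by
    ext i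
    fin_cases i
    · rfl
    · rfl
  have hχ3 : ∃ a, Ξ a ![χ 0, χ 1] := ⟨a, by rw [← hχ2]; exact h⟩
  by_cases h0 : χ 0 = 0
  · have h1 : χ 1 ≠ 0 := by
      intro h1
      apply hχ
      ext i
      fin_cases i
      · exact h0
      · exact h1
    exact main _ _ h1 (hsw _ _ hχ3)
  · exact main _ _ h0 hχ3

end Pool.Agent.Lib.MP_021685_agO4
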