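import Pool.Agent.Lib.MP_021685_agO4.F0
import Pool.Agent.Lib.MP_021685_agO4.A6

/-!
# C1: combinations of complete pairings with coefficients in `N`
-/

set_option autoImplicit false
set_option linter.unusedSectionVars false

namespace Pool.Agent.Lib.MP_021685_agO4

open Module Function Pool.Agent.Lib.MP_021685_agO

variable {k H N : Type*} [Field k] [CharZero k] [AddCommGroup H] [Module k H] [FiniteDimensional k H]
  [AddCommGroup N] [Module k N]

/-- PROOF. The difference of the two sides is killed by every linear form `l` on `N`: `l (der X M w)` is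
`der X (l.compMultilinearMap M) w` (`der_linear`), and `der_pairSp` for `l.compMultilinearMap M`. A vector
killed by all the linear forms is zero (`Module.forall_dual_apply_eq_zero_iff`). -/
theorem der_pairSpN {Φ : Type*} {n : ℕ} {f : Fin n → Φ} {B : Φ → H →ₗ[k] H →ₗ[k] k} {X : End k H}
    {x : k} (hB : ∀ φ u v, B φ (X u) v + B φ u (X v) = x * B φ u v)
    {M : MultilinearMap k (fun _ : Fin n => H) N}
    (hM : ∀ l : N →ₗ[k] k, l.compMultilinearMap M ∈ pairSp f B) (w : Fin n → H) :
    der X M w = ((n : k) / 2 * x) • M w := by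
  rw [← sub_eq_zero, ← Module.forall_dual_apply_eq_zero_iff k]
  intro l
  rw [map_sub, ← der_linear, der_pairSp hB (hM l) w, map_smul, smul_eq_mul,
    LinearMap.compMultilinearMap_apply, sub_self]

/-- PROOF. `interp` with `V = pairSp f B` (finite-dimensional, `inferInstance` as in the proof of
`gen_core`), `Ω = Fin n → H`, `ev ω M = M ω` (a linear map; a multilinear form which vanishes everywhere is
zero): `w`, `b` with `M' = ∑ j, M' (w j) • b j` for all `M' ∈ pairSp f B`. For `M` with values in `N` and
`v`, the difference of the two sides is killed by every linear form `l` on `N`: apply the formula to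
`M' = l.compMultilinearMap M` and evaluate at `v`. Conclude by `Module.forall_dual_apply_eq_zero_iff`. -/
theorem expandN {Φ : Type*} {n : ℕ} (f : Fin n → Φ) (B : Φ → H →ₗ[k] H →ₗ[k] k) :
    ∃ (r : ℕ) (w : Fin r → Fin n → H) (b : Fin r → MultilinearMap k (fun _ : Fin n => H) k),
      (∀ j, b j ∈ pairSp f B) ∧ ∀ M : MultilinearMap k (fun _ : Fin n => H) N,
        (∀ l : N →ₗ[k] k, l.compMultilinearMap M ∈ pairSp f B) →
        ∀ v, M v = ∑ j, b j v • M (w j) := by
  have hfd : FiniteDimensional k (pairSp f B) := inferInstance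
  obtain ⟨ev, hev⟩ : ∃ ev : (Fin n → H) → (pairSp f B →ₗ[k] k),
      ∀ v (M : pairSp f B), ev v M = (M : MultilinearMap k (fun _ : Fin n => H) k) v :=
    ⟨fun v =>
      { toFun := fun M => (M : MultilinearMap k (fun _ : Fin n => H) k) v
        map_add' := fun _ _ => rfl
        map_smul' := fun _ _ => rfl }, fun _ _ => rfl⟩
  obtain ⟨r, w, b, h⟩ := interp ev fun M hM =>
    Subtype.ext (MultilinearMap.ext fun v => (hev v M).symm.trans (hM v))
  refine ⟨r, w, fun j => (b j : MultilinearMap k (fun _ : Fin n => H) k), fun j => (b j).2, fun M hM v => ?_⟩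
  rw [← sub_eq_zero, ← Module.forall_dual_apply_eq_zero_iff k]
  intro l
  have h2 := congrArg (ev v) (h ⟨l.compMultilinearMap M, hM l⟩)
  rw [map_sum, hev] at h2
  have h3 : l (M v) = ∑ j, l ((b j : MultilinearMap k (fun _ : Fin n => H) k) v • M (w j)) := by
    refine h2.trans (Finset.sum_congr rfl fun j _ => ?_)
    rw [map_smul, map_smul, hev, hev, smul_eq_mul, smul_eq_mul, mul_comm]
    rfl
  rw [map_sub, map_sum, h3, sub_self]

end Pool.Agent.Lib.MP_021685_agO4
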