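import Pool.Agent.Lib.MP_021685_agO4.F0

/-!
# C3: the first fundamental theorem with coefficients in `N`
-/

set_option autoImplicit false
set_option linter.unusedSectionVars false

namespace Pool.Agent.Lib.MP_021685_agO4

open Module Function Pool.Agent.Lib.MP_021685_agO

variable {k H N : Type*} [Field k] [CharZero k] [AddCommGroup H] [Module k H] [FiniteDimensional k H]
  [AddCommGroup N] [Module k N]
  {g : Submodule k (End k H)} {c : End k H → k} {H₀ H₁ : Submodule k H}

/-- PROOF. As `hmem` in the proof of `gen_core` (`MP_021685_agO/OR2.lean`), for the form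
`F₀ = l.compMultilinearMap F` with values in `k`: apply `F1 D.W B` (`MP_021685_agO/OQ.lean`),
`B φ = (D.β φ).compl₁₂ (π φ) (π φ)`, which agrees with `D.β φ` on `D.W φ` (`hπ2`), and `F₀`. The
hypothesis of `F1`: for `x, y ∈ D.W φ` and `w` with `w j ∈ D.W (f j)`, the sum over the `j` with `f j = φ` of
`F₀ (update w j (β (w j) x • y + β (w j) y • x))` is `der (FF D φ x y) F₀ w` (`FF_on`, `FF_off` and
`MultilinearMap.map_update_zero`), that is `l (der (FF D φ x y) F w) = 0` (`der_linear`, `hF`). It gives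
`F' ∈ pairSp f B` which agrees with `F₀` on the `w` with `w j ∈ D.W (f j)`, and
`F₀ (fun r => π (f r) (w r)) = F' (fun r => π (f r) (w r)) = F' w` (`hπ3`, `pairSp_comp`), so the form in
question is `F'`. -/
theorem fftN (D : Dec g c H₀ H₁) {π : D.Φ → End k H} (hπ2 : ∀ φ, ∀ u ∈ D.W φ, π φ u = u)
    (hπ3 : ∀ φ u, π φ u ∈ D.W φ) {n : ℕ} (f : Fin n → D.Φ)
    (F : MultilinearMap k (fun _ : Fin n => H) N)
    (hF : ∀ φ, ∀ x ∈ D.W φ, ∀ y ∈ D.W φ, ∀ w : Fin n → H, (∀ j, w j ∈ D.W (f j)) →
      der (FF D φ x y) F w = 0) (l : N →ₗ[k] k) :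
    l.compMultilinearMap (F.compLinearMap fun r => π (f r)) ∈
      pairSp f (fun φ => (D.β φ).compl₁₂ (π φ) (π φ)) := by
  classical
  set B : D.Φ → H →ₗ[k] H →ₗ[k] k := fun φ => (D.β φ).compl₁₂ (π φ) (π φ) with hBdef
  have hBa : ∀ φ u v, B φ u v = D.β φ (π φ u) (π φ v) := fun _ _ _ => rfl
  have hBW : ∀ φ, ∀ u ∈ D.W φ, ∀ v ∈ D.W φ, B φ u v = D.β φ u v := by
    intro φ u hu v hv
    rw [hBa, hπ2 φ u hu, hπ2 φ v hv]
  have hBπ : ∀ φ u v, B φ (π φ u) (π φ v) = B φ u v := by
    intro φ u v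
    rw [hBa, hBa, hπ2 φ _ (hπ3 φ u), hπ2 φ _ (hπ3 φ v)]
  obtain ⟨F', hF', h1⟩ := F1 D.W B (fun φ u hu => by
      rw [hBW φ u hu u hu]
      exact (D.sympl φ).alt u hu)
    (fun φ u hu h => (D.sympl φ).nondeg u hu fun v hv => by
      rw [← hBW φ u hu v hv]
      exact h v hv) f (l.compMultilinearMap F) (by
      intro φ x hx y hy w hw
      have h1 : der (FF D φ x y) (l.compMultilinearMap F) w = 0 := by
        rw [der_linear, hF φ x hx y hy w hw, map_zero]
      rw [← h1]
      unfold der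
      rw [Finset.sum_filter]
      refine Finset.sum_congr rfl fun r _ => ?_
      by_cases hr : f r = φ
      · have hwr : w r ∈ D.W φ := by
          rw [← hr]
          exact hw r
        rw [if_pos hr, FF_on D hx hy hwr, hBW φ _ hwr x hx, hBW φ _ hwr y hy]
      · rw [if_neg hr, FF_off D hx hy hr (hw r), MultilinearMap.map_update_zero])
  have h2 : l.compMultilinearMap (F.compLinearMap fun r => π (f r)) = F' := by
    ext w
    have h3 : (l.compMultilinearMap (F.compLinearMap fun r => π (f r))) w =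
        (l.compMultilinearMap F) (fun r => π (f r) (w r)) := rfl
    rw [h3, h1 _ (fun r => hπ3 (f r) (w r))]
    exact pairSp_comp hBπ hF' w
  rw [h2]
  exact hF'

end Pool.Agent.Lib.MP_021685_agO4
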