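import Pool.Agent.Lib.MP_021685_agO4.F0

/-!
# C4: products with coefficients in `N`
-/

set_option autoImplicit false
set_option linter.unusedSectionVars false

namespace Pool.Agent.Lib.MP_021685_agO4

open Module Function Pool.Agent.Lib.MP_021685_agO

variable {k H N : Type*} [Field k] [CharZero k] [AddCommGroup H] [Module k H] [FiniteDimensional k H]
  [AddCommGroup N] [Module k N]
  {g : Submodule k (End k H)} {c : End k H → k} {H₀ H₁ : Submodule k H}

/-- The product of a map with values in `N` in the arguments `inl` and a form in the arguments `inr`. -/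
noncomputable def prodMLN {d n s : ℕ} (p : Fin d ⊕ Fin n ≃ Fin s)
    (Δ : MultilinearMap k (fun _ : Fin d => H) N) (M : MultilinearMap k (fun _ : Fin n => H) k) :
    MultilinearMap k (fun _ : Fin s => H) N :=
  ((TensorProduct.rid k N).toLinearMap.compMultilinearMap (Δ.domCoprod M)).domDomCongr p

theorem prodMLN_apply {d n s : ℕ} (p : Fin d ⊕ Fin n ≃ Fin s)
    (Δ : MultilinearMap k (fun _ : Fin d => H) N) (M : MultilinearMap k (fun _ : Fin n => H) k)
    (v : Fin s → H) :
    prodMLN p Δ M v = M (fun r => v (p (Sum.inr r))) • Δ (fun t => v (p (Sum.inl t))) := by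
  unfold prodMLN
  rw [MultilinearMap.domDomCongr_apply, LinearMap.compMultilinearMap_apply]
  exact TensorProduct.rid_tmul _ _

/-- PROOF. As `prodML_mem` in `MP_021685_agO/OR2.lean`, with `prodMLN` and `•` in place of `prodML` and `*`:
induction on `M ∈ pairSp f B`; for a complete pairing `M` with `q`, `φ'`, the form `prodMLN p Δ (M.compLinearMap ψ)`
is in the generating set, with the `m` forms `bil2 ((B (φ' r)).compl₁₂ (ψ (q (r, 0))) (ψ (q (r, 1))))`
(`bil2_tate`), with `Δ`, and with the bijection
`(Equiv.sumComm _ _).trans ((Equiv.sumCongr (Equiv.refl _) q).trans p)`. -/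
theorem prodMLN_mem {Φ : Type*} {d n s i : ℕ} (p : Fin d ⊕ Fin n ≃ Fin s) {f : Fin n → Φ}
    {G : Submodule k (End k H × End k N)}
    {B : Φ → H →ₗ[k] H →ₗ[k] k} (hB : ∀ X ∈ g, ∀ φ u v, B φ (X u) v + B φ u (X v) = c X * B φ u v)
    {ψ : Fin n → End k H} (hψ : ∀ r, ∀ X ∈ g, ψ r * X = X * ψ r)
    {Δ : MultilinearMap k (fun _ : Fin d => H) N} (hΔ : IsTateMap G c i d Δ)
    (hΔ0 : ∀ v : Fin d → H, (∃ t, v t ∈ H₁) → Δ v = 0)
    {M : MultilinearMap k (fun _ : Fin n => H) k} (hM : M ∈ pairSp f B) :
    IsGenMap g c G H₁ i s (prodMLN p Δ (M.compLinearMap ψ)) := by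
  unfold IsGenMap
  unfold pairSp at hM
  induction hM using Submodule.span_induction with
  | mem M hM =>
    obtain ⟨m, q, φ, -, h⟩ := hM
    refine Submodule.subset_span ⟨m, d,
      (Equiv.sumComm _ _).trans ((Equiv.sumCongr (Equiv.refl _) q).trans p),
      fun r => bil2 ((B (φ r)).compl₁₂ (ψ (q (r, 0))) (ψ (q (r, 1)))), Δ, fun r => ?_, hΔ, hΔ0,
      fun v => ?_⟩
    · refine bil2_tate fun X hX u v => ?_
      have h1 : ∀ j, ∀ u, ψ j (X u) = X (ψ j u) := fun j u =>
        congrArg (fun ξ : End k H => ξ u) (hψ j X hX)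
      rw [LinearMap.compl₁₂_apply, LinearMap.compl₁₂_apply, LinearMap.compl₁₂_apply, h1, h1, hB X hX]
    · rw [prodMLN_apply, MultilinearMap.compLinearMap_apply, h]
      refine congrArg₂ (fun (a : k) (b : N) => a • b) ?_ rfl
      refine Finset.prod_congr rfl fun r _ => ?_
      show _ = bil2 _ _
      rw [bil2_apply]
      rfl
  | zero =>
    have h1 : prodMLN p Δ ((0 : MultilinearMap k (fun _ : Fin n => H) k).compLinearMap ψ) = 0 := by
      ext v
      rw [prodMLN_apply, MultilinearMap.compLinearMap_apply, zero_apply, zero_smul,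
        zero_apply]
    rw [h1]
    exact Submodule.zero_mem _
  | add M M' _ _ h h' =>
    have h1 : prodMLN p Δ ((M + M').compLinearMap ψ) =
        prodMLN p Δ (M.compLinearMap ψ) + prodMLN p Δ (M'.compLinearMap ψ) := by
      ext v
      rw [add_apply, prodMLN_apply, prodMLN_apply, prodMLN_apply,
        MultilinearMap.compLinearMap_apply, MultilinearMap.compLinearMap_apply,
        MultilinearMap.compLinearMap_apply, add_apply, add_smul]
    rw [h1]
    exact Submodule.add_mem _ h h'
  | smul a M _ h =>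
    have h1 : prodMLN p Δ ((a • M).compLinearMap ψ) = a • prodMLN p Δ (M.compLinearMap ψ) := by
      ext v
      rw [smul_apply, prodMLN_apply, prodMLN_apply, MultilinearMap.compLinearMap_apply,
        MultilinearMap.compLinearMap_apply, smul_apply, smul_eq_mul, mul_smul]
    rw [h1]
    exact Submodule.smul_mem _ _ h

end Pool.Agent.Lib.MP_021685_agO4
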