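import Pool.Agent.Lib.MP_021685_agO4.C1
import Pool.Agent.Lib.MP_021685_agO4.C3
import Pool.Agent.Lib.MP_021685_agO4.C4

/-!
# C5: Tate maps: the form attached to a pattern
-/

set_option autoImplicit false
set_option linter.unusedSectionVars false

namespace Pool.Agent.Lib.MP_021685_agO4

open Module Function Pool.Agent.Lib.MP_021685_agO

variable {k H N : Type*} [Field k] [CharZero k] [AddCommGroup H] [Module k H] [FiniteDimensional k H]
  [AddCommGroup N] [Module k N]
  {g : Submodule k (End k H)} {c : End k H → k} {H₀ H₁ : Submodule k H}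
  {G : Submodule k (End k H × End k N)}

/-- PROOF. Follow the proof of `gen_core` in `MP_021685_agO/OR2.lean`. `B φ = (D.β φ).compl₁₂ (π φ) (π φ)`,
`f r = D.f (a r)`, `L = Sum.elim (fun _ => 1) (fun r => D.θ (a r))`,
`T₂ = (T.domDomCongr p.symm).compLinearMap L`, `F = T₂.currySum`, and
`Fh z w = F (fun t => D.P₀ (z t)) (fun r => π (f r) (w r))` are as there (with values in `N`); the identities
for `P = (X, Y) ∈ G` (`X ∈ g` by `hG1`) now read
`der X F z w + der X (F z) w = ((s + i) / 2 * c X) • F z w + Y (F z w)`, the same for `Fh`.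
* `hmem`: for all `z` and all linear forms `l` on `N`, `l.compMultilinearMap (Fh z) ∈ pairSp f B`: this is
  `fftN D hπ2 hπ3 f (F (fun t => D.P₀ (z t)))`, and its hypothesis is: for `x, y ∈ D.W φ`, `X = FF D φ x y`:
  `der X F (fun t => D.P₀ (z t)) w = 0` since `X (D.P₀ (z t)) = 0` (`FF_zero`, `D.P₀_mem`), and the sum
  `der X F z' w + der X (F z') w` is `der X T v = 0` for a suitable `v` (`der_currySum`, `der_comp`,
  `der_domDomCongr`, `hkill`), `z' = fun t => D.P₀ (z t)`.
* So by `der_pairSpN`: `der X (Fh z) w = (n / 2 * c X) • Fh z w`, and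
  `der X Fh z w = ((d + i) / 2 * c X) • Fh z w + Y (Fh z w)` (`s = d + n`).
* Take `r`, `ω : Fin r → Fin n → H`, `b` from `expandN f B`, and `Δ j z = Fh z (ω j)`, a multilinear map in
  `z` (compose `Fh` with the linear map of evaluation at `ω j`). It is a Tate map (evaluate the last
  identity at `w = ω j`; `der_linear` for the evaluation) and it is zero if some `z t ∈ H₁`
  (`D.P₀_zero`, `MultilinearMap.map_coord_zero`).
* The form in question is `∑ j, prodMLN p (Δ j) ((b j).compLinearMap fun r => D.ψ (a r))`: at `v`, with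
  `z t = v (p (Sum.inl t))`, `w r = v (p (Sum.inr r))`, the right hand side is
  `∑ j, b j (fun r => D.ψ (a r) (w r)) • Fh z (ω j) = Fh z (fun r => D.ψ (a r) (w r))` (`expandN`), and this
  is the left hand side, as in `gen_core` (`hπ2`, `D.ψ_mem`). Conclude by `prodMLN_mem`. -/
theorem gen_coreN (D : Dec g c H₀ H₁) (hG1 : ∀ P ∈ G, P.1 ∈ g) {π : D.Φ → End k H}
    (hπ1 : ∀ φ, ∀ X ∈ g, π φ * X = X * π φ)
    (hπ2 : ∀ φ, ∀ u ∈ D.W φ, π φ u = u) (hπ3 : ∀ φ u, π φ u ∈ D.W φ) {d n s i : ℕ}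
    (p : Fin d ⊕ Fin n ≃ Fin s) (a : Fin n → Fin D.n)
    {T : MultilinearMap k (fun _ : Fin s => H) N} (hT : IsTateMap G c i s T)
    (hkill : ∀ φ, ∀ x ∈ D.W φ, ∀ y ∈ D.W φ, ∀ v, der (FF D φ x y) T v = 0) :
    IsGenMap g c G H₁ i s (T.compLinearMap fun j =>
      Sum.elim (fun _ => D.P₀) (fun r => D.θ (a r) * D.ψ (a r)) (p.symm j)) := by
  classical
  have hs : (s : k) = d + n := by
    have h := Fintype.card_congr p
    rw [Fintype.card_sum, Fintype.card_fin, Fintype.card_fin, Fintype.card_fin] at h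
    rw [← h, Nat.cast_add]
  have hπX : ∀ φ, ∀ X ∈ g, ∀ u, π φ (X u) = X (π φ u) := fun φ X hX u =>
    congrArg (fun ξ : End k H => ξ u) (hπ1 φ X hX)
  set B : D.Φ → H →ₗ[k] H →ₗ[k] k := fun φ => (D.β φ).compl₁₂ (π φ) (π φ) with hBdef
  have hBa : ∀ φ u v, B φ u v = D.β φ (π φ u) (π φ v) := fun _ _ _ => rfl
  have hB : ∀ X ∈ g, ∀ φ u v, B φ (X u) v + B φ u (X v) = c X * B φ u v := by
    intro X hX φ u v
    rw [hBa, hBa, hBa, hπX φ X hX, hπX φ X hX]
    exact (D.sympl φ).mult X hX _ (hπ3 φ u) _ (hπ3 φ v)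
  set f : Fin n → D.Φ := fun r => D.f (a r) with hf
  -- the curried map
  set L : Fin d ⊕ Fin n → End k H := Sum.elim (fun _ => 1) (fun r => D.θ (a r)) with hL
  set T₂ : MultilinearMap k (fun _ : Fin d ⊕ Fin n => H) N :=
    (T.domDomCongr p.symm).compLinearMap L with hT₂
  set F := T₂.currySum with hF
  have hFa : ∀ z w, F z w = T (fun j => L (p.symm j) (Sum.elim z w (p.symm j))) := fun _ _ => rfl
  have hLX : ∀ X ∈ g, ∀ j, L j * X = X * L j := by
    intro X hX j
    rcases j with j | j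
    · show 1 * X = X * 1
      rw [one_mul, mul_one]
    · exact D.θ_comm (a j) X hX
  have hFd : ∀ X ∈ g, ∀ z w, der X F z w + der X (F z) w =
      der X T (fun j => L (p.symm j) (Sum.elim z w (p.symm j))) := by
    intro X hX z w
    rw [hF, ← der_currySum, hT₂, der_comp _ _ (hLX X hX), der_domDomCongr]
  have hFT : ∀ P ∈ G, ∀ z w, der P.1 F z w + der P.1 (F z) w =
      (((s : k) + i) / 2 * c P.1) • F z w + P.2 (F z w) := by
    intro P hP z w
    rw [hFd _ (hG1 P hP)]
    exact hT P hP _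
  set Fh : MultilinearMap k (fun _ : Fin d => H) (MultilinearMap k (fun _ : Fin n => H) N) :=
    (MultilinearMap.compLinearMapₗ (M₂ := N) (fun r : Fin n => π (f r))).compMultilinearMap
      (F.compLinearMap fun _ => D.P₀) with hFh
  have hFha : ∀ z w, Fh z w = F (fun t => D.P₀ (z t)) (fun r => π (f r) (w r)) := fun _ _ => rfl
  have hFhT : ∀ P ∈ G, ∀ z w, der P.1 Fh z w + der P.1 (Fh z) w =
      (((s : k) + i) / 2 * c P.1) • Fh z w + P.2 (Fh z w) := by
    intro P hP z w
    have hX := hG1 P hP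
    have h1 : der P.1 Fh z w = der P.1 F (fun t => D.P₀ (z t)) (fun r => π (f r) (w r)) := by
      rw [hFh, der_linear, der_comp _ _ (fun _ => D.P₀_comm P.1 hX)]
      rfl
    have h2 : der P.1 (Fh z) w = der P.1 (F (fun t => D.P₀ (z t))) (fun r => π (f r) (w r)) := by
      have h3 : Fh z = (F (fun t => D.P₀ (z t))).compLinearMap (fun r => π (f r)) := rfl
      rw [h3, der_comp _ _ (fun r => hπ1 (f r) P.1 hX)]
    rw [h1, h2, hFT P hP, hFha]
  -- the first fundamental theorem
  have hmem : ∀ z, ∀ l : N →ₗ[k] k, l.compMultilinearMap (Fh z) ∈ pairSp f B := by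
    intro z l
    refine fftN D hπ2 hπ3 f (F (fun t => D.P₀ (z t))) ?_ l
    intro φ x hx y hy w _
    have h1 := hFd _ (FF_mem D hx hy) (fun t => D.P₀ (z t)) w
    rw [hkill φ x hx y hy] at h1
    have h2 : der (FF D φ x y) F (fun t => D.P₀ (z t)) w = 0 := by
      unfold der
      rw [sum_apply]
      refine Finset.sum_eq_zero fun t _ => ?_
      rw [FF_zero D hx hy (D.P₀_mem (z t)), MultilinearMap.map_update_zero]
      rfl
    rwa [h2, zero_add] at h1
  have hFhX : ∀ P ∈ G, ∀ z w, der P.1 Fh z w =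
      (((d : k) + i) / 2 * c P.1) • Fh z w + P.2 (Fh z w) := by
    intro P hP z w
    have h1 := hFhT P hP z w
    rw [der_pairSpN (hB P.1 (hG1 P hP)) (hmem z) w, hs] at h1
    have h2 : der P.1 Fh z w = ((((d : k) + n) + i) / 2 * c P.1) • Fh z w + P.2 (Fh z w) -
        ((n : k) / 2 * c P.1) • Fh z w := by
      rw [← h1]
      abel
    rw [h2]
    module
  -- the coefficients
  obtain ⟨r, ω, b, hb, hexp⟩ := expandN (N := N) f B
  let ev : (Fin n → H) → (MultilinearMap k (fun _ : Fin n => H) N →ₗ[k] N) := fun w =>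
    { toFun := fun M => M w
      map_add' := fun _ _ => rfl
      map_smul' := fun _ _ => rfl }
  have hΔ : ∀ j, IsTateMap G c i d ((ev (ω j)).compMultilinearMap Fh) := by
    intro j P hP z
    have h1 := der_linear (X := P.1) (ev (ω j)) Fh z
    have h2 : ev (ω j) (der P.1 Fh z) = der P.1 Fh z (ω j) := rfl
    rw [h2, hFhX P hP] at h1
    exact h1
  have hzero : ∀ j, ∀ z : Fin d → H, (∃ t, z t ∈ H₁) →
      ((ev (ω j)).compMultilinearMap Fh) z = 0 := by
    rintro j z ⟨t, ht⟩
    show Fh z (ω j) = 0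
    rw [hFha, MultilinearMap.map_coord_zero F t (D.P₀_zero _ ht)]
    rfl
  -- the form
  have hform : (T.compLinearMap fun j =>
      Sum.elim (fun _ => D.P₀) (fun r => D.θ (a r) * D.ψ (a r)) (p.symm j)) =
      ∑ j, prodMLN p ((ev (ω j)).compMultilinearMap Fh)
        ((b j).compLinearMap fun r => D.ψ (a r)) := by
    ext v
    rw [MultilinearMap.compLinearMap_apply, sum_apply]
    simp only [prodMLN_apply]
    set z : Fin d → H := fun t => v (p (Sum.inl t)) with hz
    set w : Fin n → H := fun r => v (p (Sum.inr r)) with hw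
    have h2 : Fh z (fun r => D.ψ (a r) (w r)) = ∑ j, b j (fun r => D.ψ (a r) (w r)) •
        Fh z (ω j) := hexp (Fh z) (hmem z) _
    have h3 : Fh z (fun r => D.ψ (a r) (w r)) = T (fun j =>
        (Sum.elim (fun _ => D.P₀) (fun r => D.θ (a r) * D.ψ (a r)) (p.symm j) : End k H) (v j)) := by
      rw [hFha, hFa]
      congr 1
      funext j
      obtain ⟨j, rfl⟩ := p.surjective j
      rw [Equiv.symm_apply_apply]
      rcases j with t | r
      · rfl
      · show D.θ (a r) (π (f r) (D.ψ (a r) (w r))) = D.θ (a r) (D.ψ (a r) (v (p (Sum.inr r))))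
        rw [hπ2 _ _ (D.ψ_mem (a r) (w r))]
    rw [← h3, h2]
    rfl
  rw [hform]
  exact Submodule.sum_mem _ fun j _ => prodMLN_mem p hB (fun r => D.ψ_comm (a r)) (hΔ j) (hzero j)
    (hb j)

end Pool.Agent.Lib.MP_021685_agO4
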