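import Pool.Agent.Lib.MP_021685_agO4.C5

/-!
# C6: Tate maps from the decomposition of `H`
-/

set_option autoImplicit false
set_option linter.unusedSectionVars false

namespace Pool.Agent.Lib.MP_021685_agO4

open Module Function Pool.Agent.Lib.MP_021685_agO

variable {k H N : Type*} [Field k] [CharZero k] [AddCommGroup H] [Module k H] [FiniteDimensional k H]
  [AddCommGroup N] [Module k N]
  {g : Submodule k (End k H)} {c : End k H → k} {H₀ H₁ : Submodule k H}
  {G : Submodule k (End k H × End k N)}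

/-- PROOF. Word for word the proof of `gen_of_dec` in `MP_021685_agO/OR2.lean`, with `gen_coreN`. -/
theorem gen_of_decN (hg : IsGaloisAlg g c) (D : Dec g c H₀ H₁) (hG1 : ∀ P ∈ G, P.1 ∈ g) {s i : ℕ}
    {T : MultilinearMap k (fun _ : Fin s => H) N} (hT : IsTateMap G c i s T)
    (hkill : ∀ φ, ∀ x ∈ D.W φ, ∀ y ∈ D.W φ, ∀ v, der (FF D φ x y) T v = 0) :
    IsGenMap g c G H₁ i s T := by
  classical
  have hπ : ∀ φ, ∃ π : End k H, (∀ X ∈ g, π * X = X * π) ∧ (∀ u ∈ D.W φ, π u = u) ∧
      ∀ u, π u ∈ D.W φ := by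
    intro φ
    obtain ⟨U', hU', hc⟩ := hg.semisimple _ (D.simple φ).2.1
    obtain ⟨p, h1, h2, -, h4⟩ := exists_proj (D.simple φ).2.1 hU' hc
    exact ⟨p, h1, h2, h4⟩
  choose π hπ1 hπ2 hπ3 using hπ
  let Q : Option (Fin D.n) → End k H := fun o => o.elim D.P₀ fun a => D.θ a * D.ψ a
  have hQ : ∑ o, Q o = 1 := by
    rw [Fintype.sum_option]
    exact D.sum_eq
  have hsum : T = ∑ i : Fin s → Option (Fin D.n), T.compLinearMap (fun j => Q (i j)) := by
    ext v
    rw [sum_apply]
    simp only [MultilinearMap.compLinearMap_apply]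
    rw [← MultilinearMap.map_sum T (fun j o => Q o (v j))]
    congr 1
    funext j
    rw [← LinearMap.sum_apply, hQ, Module.End.one_apply]
  have hgen : ∀ i' : Fin s → Option (Fin D.n),
      IsGenMap g c G H₁ i s (T.compLinearMap fun j => Q (i' j)) := by
    intro i'
    obtain ⟨d, n, p, a, h1, h2⟩ := exists_split i'
    have h3 : (fun j => Q (i' j)) = fun j =>
        Sum.elim (fun _ => D.P₀) (fun r => D.θ (a r) * D.ψ (a r)) (p.symm j) := by
      funext j
      obtain ⟨j, rfl⟩ := p.surjective j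
      rw [Equiv.symm_apply_apply]
      rcases j with t | r
      · rw [h1]
        rfl
      · rw [h2]
        rfl
    rw [h3]
    exact gen_coreN D hG1 hπ1 hπ2 hπ3 p a hT hkill
  rw [hsum]
  exact Submodule.sum_mem _ fun i' _ => hgen i'

end Pool.Agent.Lib.MP_021685_agO4
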