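import Pool.Agent.Lib.MP_021685_agO.OR1

/-!
# D2: the decomposition of `H`, with a property of its subspaces
-/

set_option autoImplicit false
set_option linter.unusedSectionVars false

namespace Pool.Agent.Lib.MP_021685_agO4

open Module Pool.Agent.Lib.MP_021685_agO

variable {k H : Type*} [Field k] [CharZero k] [AddCommGroup H] [Module k H]
  [FiniteDimensional k H]
  {g : Submodule k (End k H)} {c : End k H → k}

/-- The decomposition of `H`, by subspaces which have the property `Q`. -/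
theorem exists_dec_pred (hg : IsGaloisAlg g c) {H₀ H₁ : Submodule k H} (hc : IsCompl H₀ H₁)
    (h₀ : IsStable g H₀) (h₁ : IsStable g H₁)
    (hHom : ∀ φ : End k H, (∀ X ∈ g, φ * X = X * φ) → ∀ u ∈ H₁, φ u ∈ H₁)
    (Q : Submodule k H → Prop)
    (hfull : ∀ U ≤ H₁, IsSimpleSub g U → ∃ W β, IsSimpleSub g W ∧ IsSympl g c W β ∧
      Full g W β ∧ Iso g W U ∧ Q W) : ∃ D : Dec g c H₀ H₁, ∀ φ, Q (D.W φ) := by
  classical
  obtain ⟨P₀, hP₀, hP₀H₀, hP₀H₁, hP₀m⟩ := exists_proj h₀ h₁ hc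
  obtain ⟨m, χ, hχ, hχ₀, -⟩ := exists_sum hg h₀ h₁ hc
  obtain ⟨n, φ, hφ, hφ₁, hφ₀⟩ := exists_sum hg h₁ h₀ hc.symm
  choose hφX U hUle hU hφU using hφ
  choose W' β' hW' hs' hF' hI' hQ' using fun i => hfull (U i) (hUle i) (hU i)
  let st : Setoid (Fin n) :=
    { r := fun i j => Iso g (W' i) (W' j)
      iseqv := ⟨fun i => iso_refl _, fun {i j} h => iso_symm hg (hW' i) (hW' j) h,
        fun h h' => iso_trans h h'⟩ }
  have hI : ∀ i, Iso g (W' (Quotient.mk st i).out) (U i) := fun i =>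
    iso_trans (Quotient.mk_out (s := st) i) (hI' i)
  choose θ hθX hθU using hI
  choose κ hκX hκm hκθ hθκ using fun i =>
    exists_inv hg (hW' (Quotient.mk st i).out) (hU i) (hθX i) (hθU i)
  -- the simple subspaces of `H₀` are not isomorphic to the `W' i`
  have hno : ∀ i, ∀ V ≤ H₀, IsSimpleSub g V → ¬ Iso g (W' i) V := by
    rintro i V hV hVs ⟨ρ, hρ, hρV⟩
    obtain ⟨σ, hσ, hσU⟩ := hI' i
    obtain ⟨τ, hτ, -, hτσ, -⟩ := exists_inv hg (hW' i) (hU i) hσ hσU
    refine hVs.1 (le_bot_iff.1 ?_)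
    rw [← hρV]
    rintro _ ⟨w, hw, rfl⟩
    refine hc.disjoint.le_bot ⟨hV ?_, ?_⟩
    · rw [← hρV]
      exact Submodule.mem_map_of_mem hw
    · have h1 : σ w ∈ H₁ := by
        refine hUle i ?_
        rw [← hσU]
        exact Submodule.mem_map_of_mem hw
      have h2 := hHom (ρ * τ) (fun X hX => by
        rw [mul_assoc, hτ X hX, ← mul_assoc, hρ X hX, mul_assoc]) _ h1
      rw [Module.End.mul_apply, hτσ w hw] at h2
      exact h2
  refine ⟨{
    n := n
    Φ := Quotient st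
    W := fun q => W' q.out
    β := fun q => β' q.out
    f := fun i => Quotient.mk st i
    P₀ := P₀
    ψ := fun i => κ i * φ i
    θ := θ
    P₀_comm := hP₀
    P₀_mem := hP₀m
    P₀_zero := hP₀H₁
    sum_eq := ?_
    ψ_comm := ?_
    θ_comm := hθX
    ψ_mem := fun i v => hκm i _
    simple := fun q => hW' _
    sympl := fun q => hs' _
    full := ?_ }, fun q => hQ' _⟩
  · have h1 : ∀ i, θ i * (κ i * φ i) = φ i := by
      intro i
      ext v
      exact hθκ i _ (hφU i v)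
    simp only [h1]
    ext v
    have hv : v ∈ H₀ ⊔ H₁ := by rw [hc.sup_eq_top]; trivial
    obtain ⟨a, ha, b, hb, rfl⟩ := Submodule.mem_sup.1 hv
    rw [LinearMap.add_apply, map_add, map_add, hP₀H₀ a ha, hP₀H₁ b hb, hφ₀ a ha, hφ₁ b hb,
      add_zero, zero_add]
    rfl
  · intro i X hX
    rw [mul_assoc, hφX i X hX, ← mul_assoc, hκX i X hX, mul_assoc]
  · intro q x hx y hy
    obtain ⟨X, hX, hXW, hX0⟩ := hF' q.out x hx y hy
    refine ⟨X, hX, c_eq_zero (hs' q.out) (hW' q.out).1 hX hx hy hXW, hXW, ?_, ?_⟩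
    · intro q' hq' u hu
      refine hX0 _ (hW' _) (fun h => hq' ?_) u hu
      exact (Quotient.out_equiv_out.1 h).symm
    · intro u hu
      have h1 : u = ∑ i, χ i u := by
        have h2 := hχ₀ u hu
        rw [LinearMap.sum_apply] at h2
        exact h2.symm
      rw [h1, map_sum]
      refine Finset.sum_eq_zero fun i _ => ?_
      obtain ⟨-, V, hV, hVs, hm⟩ := hχ i
      exact hX0 V hVs (hno _ V hV hVs) _ (hm u)

end Pool.Agent.Lib.MP_021685_agO4
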