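import Pool.Agent.Lib.MP_021685_agO.Defs

/-!
# Tate classes on `A ^ n × Z`: the definitions used in the statement
-/

set_option autoImplicit false

namespace Pool.Agent.Lib.MP_021685_agO4

open Module Pool.Agent.Lib.MP_021685_agO

variable {k H N : Type*} [Field k] [AddCommGroup H] [Module k H] [AddCommGroup N] [Module k N]

/-- The multilinear map `T` with `s` arguments in `H` and with values in `N` is a Tate map (for the space
`G` of pairs `(X, Y)` of endomorphisms of `H` and of `N`, and for the weight `i`): for every pair `(X, Y)`
in `G` and all `v`, the sum over `j` of the `T (.., X v_j, ..)` is `(s + i) / 2 * c(X) * T v + Y (T v)`.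
(If `H = H_1(A)` and `N = H^i(Z)` are given by the cohomology of an abelian variety `A` and of a smooth
projective variety `Z`, and `G` by the action of the Lie algebra of the Galois group, these are the Tate
classes in the part `H^1(A) ^ (⊗ s) ⊗ H^i(Z)` of the cohomology of `A ^ s × Z`.) -/
def IsTateMap (G : Submodule k (End k H × End k N)) (c : End k H → k) (i s : ℕ)
    (T : MultilinearMap k (fun _ : Fin s => H) N) : Prop :=
  ∀ P ∈ G, ∀ v : Fin s → H,
    ∑ j, T (Function.update v j (P.1 (v j))) = (((s : k) + i) / 2 * c P.1) • T v + P.2 (T v)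

/-- The multilinear map `T` with `s` arguments in `H` and with values in `N` is a linear combination of
products `β₁ ⋯ β_m Δ`, where the `β_r` are Tate forms with two arguments on `H` and `Δ` is a Tate map with
`d` arguments and with values in `N` which is zero as soon as one of its arguments is in `H₁`; the
arguments are distributed by a bijection `p`. -/
def IsGenMap (g : Submodule k (End k H)) (c : End k H → k) (G : Submodule k (End k H × End k N))
    (H₁ : Submodule k H) (i s : ℕ) (T : MultilinearMap k (fun _ : Fin s => H) N) : Prop :=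
  T ∈ Submodule.span k {T' | ∃ (m d : ℕ) (p : (Fin m × Fin 2) ⊕ Fin d ≃ Fin s)
    (β : Fin m → MultilinearMap k (fun _ : Fin 2 => H) k)
    (Δ : MultilinearMap k (fun _ : Fin d => H) N),
    (∀ r, IsTateForm g c 2 (β r)) ∧ IsTateMap G c i d Δ ∧
    (∀ v : Fin d → H, (∃ t, v t ∈ H₁) → Δ v = 0) ∧
    ∀ v : Fin s → H, T' v = (∏ r, β r (fun ε => v (p (Sum.inl (r, ε))))) •
      Δ (fun t => v (p (Sum.inr t)))}

/-- The space `N` is small compared with the subspace `U` of `H`: one of the following holds.
* The dimension of `N` is less than the dimension of `U`.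
* The dimension of `U` is not four, and for a pair `(h, Y)` in `G`, where `h` is idempotent with multiplier
  `1`, at most one eigenspace of `Y` has a dimension `≥ dim U / 2`.
* For a pair `(X, Y)` in `G` the endomorphism `Y` is a scalar, but `X` is not a scalar on `U`. -/
def IsSmall (g : Submodule k (End k H)) (c : End k H → k) (G : Submodule k (End k H × End k N))
    (U : Submodule k H) : Prop :=
  finrank k N < finrank k U ∨
  (finrank k U ≠ 4 ∧ ∃ P ∈ G, IsHodgeElt g c P.1 ∧ ∀ a b : k,
    finrank k U ≤ 2 * finrank k (LinearMap.ker (P.2 - a • (1 : End k N))) →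
    finrank k U ≤ 2 * finrank k (LinearMap.ker (P.2 - b • (1 : End k N))) → a = b) ∨
  ∃ P ∈ G, (∃ a : k, P.2 = a • (1 : End k N)) ∧ ∃ u ∈ U, ∀ b : k, P.1 u ≠ b • u

end Pool.Agent.Lib.MP_021685_agO4
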