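import Pool.Agent.Lib.MP_021685_agO4.Defs
import Pool.Agent.Lib.MP_021685_agO.OR1
import Pool.Agent.Lib.MP_021685_agO.OR2

/-!
# The elements of the symplectic Lie algebras, and the values of a multilinear map
-/

set_option autoImplicit false
set_option linter.unusedSectionVars false

namespace Pool.Agent.Lib.MP_021685_agO4

open Module Function Pool.Agent.Lib.MP_021685_agO

variable {k H : Type*} [Field k] [CharZero k] [AddCommGroup H] [Module k H] [FiniteDimensional k H]
  {g : Submodule k (End k H)} {c : End k H → k} {H₀ H₁ : Submodule k H}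

/-- The endomorphism `u ↦ β(u, x) y + β(u, y) x` of `H`. -/
def EE (β : H →ₗ[k] H →ₗ[k] k) : H →ₗ[k] H →ₗ[k] End k H :=
  LinearMap.mk₂ k (fun x y => (β.flip x).smulRight y + (β.flip y).smulRight x)
    (by
      intro x x' y
      ext u
      simp only [map_add, LinearMap.add_apply, LinearMap.smulRight_apply, LinearMap.flip_apply,
        add_smul, smul_add]
      abel)
    (by
      intro a x y
      ext u
      simp only [map_smul, LinearMap.add_apply, LinearMap.smul_apply, LinearMap.smulRight_apply,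
        LinearMap.flip_apply, smul_add, smul_smul, smul_eq_mul, mul_comm])
    (by
      intro x y y'
      ext u
      simp only [map_add, LinearMap.add_apply, LinearMap.smulRight_apply, LinearMap.flip_apply,
        add_smul, smul_add]
      abel)
    (by
      intro a x y
      ext u
      simp only [map_smul, LinearMap.add_apply, LinearMap.smul_apply, LinearMap.smulRight_apply,
        LinearMap.flip_apply, smul_add, smul_smul, smul_eq_mul, mul_comm])

theorem EE_apply (β : H →ₗ[k] H →ₗ[k] k) (x y u : H) : EE β x y u = β u x • y + β u y • x := rfl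

open Classical in
/-- The element of `g` which acts on the subspace `W φ` by `u ↦ β(u, x) y + β(u, y) x` and by zero on
`H₀` and on the other subspaces. -/
noncomputable def FF (D : Dec g c H₀ H₁) (φ : D.Φ) : H →ₗ[k] H →ₗ[k] End k H :=
  LinearMap.mk₂ k (fun x y => ∑ a, if D.f a = φ then D.θ a * EE (D.β φ) x y * D.ψ a else 0)
    (by
      intro x x' y
      rw [← Finset.sum_add_distrib]
      refine Finset.sum_congr rfl fun a _ => ?_
      split_ifs
      · rw [map_add, LinearMap.add_apply, mul_add, add_mul]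
      · rw [add_zero])
    (by
      intro b x y
      rw [Finset.smul_sum]
      refine Finset.sum_congr rfl fun a _ => ?_
      split_ifs
      · rw [map_smul, LinearMap.smul_apply, mul_smul_comm, smul_mul_assoc]
      · rw [smul_zero])
    (by
      intro x y y'
      rw [← Finset.sum_add_distrib]
      refine Finset.sum_congr rfl fun a _ => ?_
      split_ifs
      · rw [map_add, mul_add, add_mul]
      · rw [add_zero])
    (by
      intro b x y
      rw [Finset.smul_sum]
      refine Finset.sum_congr rfl fun a _ => ?_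
      split_ifs
      · rw [map_smul, mul_smul_comm, smul_mul_assoc]
      · rw [smul_zero])

open Classical in
theorem FF_eq (D : Dec g c H₀ H₁) (φ : D.Φ) (x y : H) :
    FF D φ x y = ∑ a, if D.f a = φ then D.θ a * EE (D.β φ) x y * D.ψ a else 0 := rfl

theorem FF_symm (D : Dec g c H₀ H₁) (φ : D.Φ) (x y : H) : FF D φ x y = FF D φ y x := by
  classical
  rw [FF_eq, FF_eq]
  refine Finset.sum_congr rfl fun a _ => ?_
  have h1 : EE (D.β φ) x y = EE (D.β φ) y x := by
    ext u
    rw [EE_apply, EE_apply, add_comm]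
  rw [h1]

/-- Two endomorphisms of `H` which commute with the `θ a` and agree on `H₀` and on the `W (f a)` are
equal. -/
theorem Dec.ext (D : Dec g c H₀ H₁) {X : End k H} (hX : ∀ a, D.θ a * X = X * D.θ a) (v : H) :
    X v = X (D.P₀ v) + ∑ a, D.θ a (X (D.ψ a v)) := by
  have h1 : v = D.P₀ v + ∑ a, D.θ a (D.ψ a v) := by
    have h2 := LinearMap.congr_fun D.sum_eq v
    rw [LinearMap.add_apply, LinearMap.sum_apply] at h2
    exact h2.symm
  conv_lhs => rw [h1]
  rw [map_add, map_sum]
  congr 1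
  refine Finset.sum_congr rfl fun a _ => ?_
  exact (LinearMap.congr_fun (hX a) (D.ψ a v)).symm

/-- The element of `g` given by `Dec.full` is `FF D φ x y`. -/
theorem FF_eq_of (D : Dec g c H₀ H₁) {φ : D.Φ} {x y : H} {X : End k H} (hX : X ∈ g)
    (h1 : ∀ u ∈ D.W φ, X u = D.β φ u x • y + D.β φ u y • x)
    (h2 : ∀ φ', φ' ≠ φ → ∀ u ∈ D.W φ', X u = 0) (h3 : ∀ u ∈ H₀, X u = 0) : FF D φ x y = X := by
  classical
  ext v
  rw [Dec.ext D (fun a => D.θ_comm a X hX) v, h3 _ (D.P₀_mem v), zero_add, FF_eq, LinearMap.sum_apply]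
  refine Finset.sum_congr rfl fun a _ => ?_
  split_ifs with h
  · rw [h1 _ (h ▸ D.ψ_mem a v)]
    rfl
  · rw [h2 _ h _ (D.ψ_mem a v), map_zero]
    rfl

theorem FF_full (D : Dec g c H₀ H₁) {φ : D.Φ} {x y : H} (hx : x ∈ D.W φ) (hy : y ∈ D.W φ) :
    FF D φ x y ∈ g ∧ c (FF D φ x y) = 0 ∧
    (∀ u ∈ D.W φ, FF D φ x y u = D.β φ u x • y + D.β φ u y • x) ∧
    (∀ φ', φ' ≠ φ → ∀ u ∈ D.W φ', FF D φ x y u = 0) ∧ ∀ u ∈ H₀, FF D φ x y u = 0 := by
  obtain ⟨X, hX, hcX, hX1, hX2, hX3⟩ := D.full φ x hx y hy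
  rw [FF_eq_of D hX hX1 hX2 hX3]
  exact ⟨hX, hcX, hX1, hX2, hX3⟩

theorem FF_mem (D : Dec g c H₀ H₁) {φ : D.Φ} {x y : H} (hx : x ∈ D.W φ) (hy : y ∈ D.W φ) :
    FF D φ x y ∈ g := (FF_full D hx hy).1

theorem FF_c (D : Dec g c H₀ H₁) {φ : D.Φ} {x y : H} (hx : x ∈ D.W φ) (hy : y ∈ D.W φ) :
    c (FF D φ x y) = 0 := (FF_full D hx hy).2.1

theorem FF_on (D : Dec g c H₀ H₁) {φ : D.Φ} {x y : H} (hx : x ∈ D.W φ) (hy : y ∈ D.W φ) {u : H}
    (hu : u ∈ D.W φ) : FF D φ x y u = D.β φ u x • y + D.β φ u y • x := (FF_full D hx hy).2.2.1 u hu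

theorem FF_off (D : Dec g c H₀ H₁) {φ : D.Φ} {x y : H} (hx : x ∈ D.W φ) (hy : y ∈ D.W φ) {φ' : D.Φ}
    (h : φ' ≠ φ) {u : H} (hu : u ∈ D.W φ') : FF D φ x y u = 0 := (FF_full D hx hy).2.2.2.1 φ' h u hu

theorem FF_zero (D : Dec g c H₀ H₁) {φ : D.Φ} {x y : H} (hx : x ∈ D.W φ) (hy : y ∈ D.W φ) {u : H}
    (hu : u ∈ H₀) : FF D φ x y u = 0 := (FF_full D hx hy).2.2.2.2 u hu

/-- The bracket of an element of `g` and of `FF D φ x y`. -/
theorem FF_bracket (D : Dec g c H₀ H₁) {φ : D.Φ} {x y : H} (hx : x ∈ D.W φ) (hy : y ∈ D.W φ)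
    {A : End k H} (hA : A ∈ g) :
    A * FF D φ x y - FF D φ x y * A =
      FF D φ (A x) y + FF D φ x (A y) - c A • FF D φ x y := by
  classical
  have hθ : ∀ a v, A (D.θ a v) = D.θ a (A v) := fun a v =>
    (LinearMap.congr_fun (D.θ_comm a A hA) v).symm
  have hψ : ∀ a v, D.ψ a (A v) = A (D.ψ a v) := fun a v => LinearMap.congr_fun (D.ψ_comm a A hA) v
  have hFF : ∀ x y v, FF D φ x y v = ∑ a, if D.f a = φ then D.θ a (EE (D.β φ) x y (D.ψ a v)) else 0 := by
    intro x y v
    rw [FF_eq, LinearMap.sum_apply]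
    refine Finset.sum_congr rfl fun a _ => ?_
    split_ifs
    · rfl
    · rfl
  ext v
  rw [LinearMap.sub_apply, Module.End.mul_apply, Module.End.mul_apply, LinearMap.sub_apply,
    LinearMap.add_apply, LinearMap.smul_apply, hFF, hFF, hFF, hFF, map_sum, Finset.smul_sum,
    ← Finset.sum_sub_distrib, ← Finset.sum_add_distrib, ← Finset.sum_sub_distrib]
  refine Finset.sum_congr rfl fun a _ => ?_
  split_ifs with h
  · have hw : D.ψ a v ∈ D.W φ := h ▸ D.ψ_mem a v
    set w := D.ψ a v with hwdef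
    have m1 := (D.sympl φ).mult A hA w hw x hx
    have m2 := (D.sympl φ).mult A hA w hw y hy
    have n1 : D.β φ w (A x) = c A * D.β φ w x - D.β φ (A w) x := by linear_combination m1
    have n2 : D.β φ w (A y) = c A * D.β φ w y - D.β φ (A w) y := by linear_combination m2
    rw [hθ, hψ, ← hwdef, ← map_sub, ← map_add, ← map_smul, ← map_sub]
    congr 1
    rw [EE_apply, EE_apply, EE_apply, EE_apply, n1, n2, map_add, map_smul, map_smul]
    module
  · rw [map_zero, smul_zero, sub_zero, add_zero, sub_zero]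

section

variable {N : Type*} [AddCommGroup N] [Module k N]

/-- The span of the values of the multilinear map `T`. -/
def vals {s : ℕ} (T : MultilinearMap k (fun _ : Fin s => H) N) : Submodule k N :=
  Submodule.span k (Set.range T)

/-- The value `T v`, as an element of `vals T`. -/
def tv {s : ℕ} (T : MultilinearMap k (fun _ : Fin s => H) N) (v : Fin s → H) : vals T :=
  ⟨T v, Submodule.subset_span ⟨v, rfl⟩⟩

theorem coe_tv {s : ℕ} (T : MultilinearMap k (fun _ : Fin s => H) N) (v : Fin s → H) :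
    ((tv T v : vals T) : N) = T v := rfl

/-- The elements `tv T v` span `vals T`. -/
theorem span_tv {s : ℕ} (T : MultilinearMap k (fun _ : Fin s => H) N) :
    Submodule.span k (Set.range (tv T)) = ⊤ := by
  rw [eq_top_iff]
  rintro ⟨u, hu⟩ -
  have h1 : Submodule.span k (Set.range T) ≤
      (Submodule.span k (Set.range (tv T))).map (vals T).subtype := by
    rw [Submodule.map_span]
    refine Submodule.span_mono ?_
    rintro _ ⟨v, rfl⟩
    exact ⟨tv T v, ⟨v, rfl⟩, rfl⟩
  obtain ⟨u', hu', h2⟩ := h1 hu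
  have h3 : u' = ⟨u, hu⟩ := Subtype.ext h2
  rwa [h3] at hu'

/-- Two endomorphisms of `vals T` which agree on the `tv T v` are equal. -/
theorem ext_tv {s : ℕ} {T : MultilinearMap k (fun _ : Fin s => H) N} {A B : End k (vals T)}
    (h : ∀ v, A (tv T v) = B (tv T v)) : A = B := by
  refine LinearMap.ext_on (span_tv T) ?_
  rintro _ ⟨v, rfl⟩
  exact h v

/-- The action `ρ` of `g` on the span of the values of the Tate map `T`. -/
structure IsRep (g : Submodule k (End k H)) (c : End k H → k) (G : Submodule k (End k H × End k N))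
    (i : ℕ) {s : ℕ} (T : MultilinearMap k (fun _ : Fin s => H) N) (ρ : End k H → End k (vals T)) :
    Prop where
  snd : ∀ P ∈ G, ∀ u : vals T, ((ρ P.1 u : vals T) : N) = P.2 (u : N)
  der : ∀ X ∈ g, ∀ v, ((ρ X (tv T v) : vals T) : N) = der X T v - (((s : k) + i) / 2 * c X) • T v
  bracket : ∀ X ∈ g, ∀ X' ∈ g, X * X' - X' * X ∈ g → c (X * X' - X' * X) = 0 →
    ρ (X * X' - X' * X) = ρ X * ρ X' - ρ X' * ρ X
  lin : ∀ X ∈ g, ∀ X' ∈ g, ∀ a : k, c (a • X + X') = a * c X + c X' →
    ρ (a • X + X') = a • ρ X + ρ X'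

end

end Pool.Agent.Lib.MP_021685_agO4
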